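import Pool.Agent.Y852.RQ.C

/-!
# Roots of normal operators in the centre of a reductive set of operators
-/

set_option autoImplicit false
set_option linter.unusedSectionVars false
open scoped InnerProductSpace

namespace Pool.Agent.Y852.RQ

universe u v
open ContinuousLinearMap Polynomial

section
variable {H : Type u} [NormedAddCommGroup H] [InnerProductSpace ℂ H] [CompleteSpace H]

/-- `𝒮` is a reductive set of operators and `T` is a member of it commuting with all members. -/
structure Ctx (𝒮 : Set (H →L[ℂ] H)) (T : H →L[ℂ] H) : Prop where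
  mem : T ∈ 𝒮
  comm : ∀ S ∈ 𝒮, Commute S T
  red : ∀ M : Submodule ℂ H, IsClosed (M : Set H) → (∀ S ∈ 𝒮, ∀ x ∈ M, S x ∈ M) →
    ∀ S ∈ 𝒮, ∀ x ∈ M, adjoint S x ∈ M

lemma comm_apply {S T : H →L[ℂ] H} (h : Commute S T) (x : H) : S (T x) = T (S x) :=
  congrArg (fun W : H →L[ℂ] H => W x) h.eq

lemma list_inv (M : Submodule ℂ H) : ∀ l : List (H →L[ℂ] H), (∀ Z ∈ l, ∀ x ∈ M, Z x ∈ M) →
    ∀ x ∈ M, l.prod x ∈ M := by
  intro l
  induction l with
  | nil => intro _ x hx; simpa using hx
  | cons Z l ih =>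
    intro h x hx
    rw [List.prod_cons]
    show Z (l.prod x) ∈ M
    exact h Z List.mem_cons_self _ (ih (fun W hW => h W (List.mem_cons_of_mem _ hW)) x hx)

lemma list_normal {𝒮 : Set (H →L[ℂ] H)} {T : H →L[ℂ] H} (h : Ctx 𝒮 T) :
    ∀ (l : List (H →L[ℂ] H)), (∀ Z ∈ l, IsStarNormal Z ∧ ∀ S ∈ 𝒮, Commute S Z) →
      (∀ Z ∈ l, ∀ W ∈ l, Commute Z W) →
      ∀ M : Submodule ℂ H, IsClosed (M : Set H) → (∀ S ∈ 𝒮, ∀ x ∈ M, S x ∈ M) →
        (∀ Z ∈ l, ∀ x ∈ M, Z x ∈ M ∧ adjoint Z x ∈ M) →
        (∀ x ∈ M, (l.map (fun Z => T - Z)).prod x = 0) →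
        ∀ x ∈ M, T (adjoint T x) = adjoint T (T x) := by
  intro l
  induction l with
  | nil =>
    intro _ _ M _ _ _ h0 x hx
    have := h0 x hx
    simp at this
    rw [this]; simp
  | cons Z l ih =>
    intro hZ hcom M hMc hMS hMZ h0
    obtain ⟨hZn, hZS⟩ := hZ Z List.mem_cons_self
    have hTZ : Commute T Z := hZS T h.mem
    set U : H →L[ℂ] H := T - Z with hU
    have hSU : ∀ S ∈ 𝒮, Commute S U := fun S hS => (h.comm S hS).sub_right (hZS S hS)
    have hWU : ∀ W ∈ Z :: l, Commute W U ∧ Commute (adjoint W) U := by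
      intro W hW
      obtain ⟨hWn, hWS⟩ := hZ W hW
      have c1 : Commute T W := hWS T h.mem
      have c2 : Commute Z W := hcom Z List.mem_cons_self W hW
      refine ⟨(c1.symm).sub_right c2.symm, ?_⟩
      have d1 : Commute T (adjoint W) := hWn.commute_star_right c1
      have d2 : Commute Z (adjoint W) := hWn.commute_star_right c2
      exact d1.symm.sub_right d2.symm
    set M1 : Submodule ℂ H := M ⊓ LinearMap.ker (U : H →ₗ[ℂ] H) with hM1
    have hmem1 : ∀ x, x ∈ M1 ↔ x ∈ M ∧ U x = 0 := fun x => by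
      rw [hM1, Submodule.mem_inf, LinearMap.mem_ker]; rfl
    have hM1c : IsClosed (M1 : Set H) := hMc.inter (ContinuousLinearMap.isClosed_ker U)
    have hM1S : ∀ S ∈ 𝒮, ∀ x ∈ M1, S x ∈ M1 := by
      intro S hS x hx
      rw [hmem1] at hx ⊢
      refine ⟨hMS S hS x hx.1, ?_⟩
      rw [← comm_apply (hSU S hS), hx.2, map_zero]
    have hM1Z : ∀ W ∈ Z :: l, ∀ x ∈ M1, W x ∈ M1 ∧ adjoint W x ∈ M1 := by
      intro W hW x hx
      rw [hmem1] at hx
      obtain ⟨a, b⟩ := hMZ W hW x hx.1
      obtain ⟨c, d⟩ := hWU W hW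
      constructor
      · rw [hmem1]
        refine ⟨a, ?_⟩
        rw [← comm_apply c, hx.2, map_zero]
      · rw [hmem1]
        refine ⟨b, ?_⟩
        rw [← comm_apply d, hx.2, map_zero]
    have hM1T := h.red M1 hM1c hM1S
    have hTx : ∀ x ∈ M1, T x = Z x := by
      intro x hx
      have : T x - Z x = 0 := ((hmem1 x).1 hx).2
      exact sub_eq_zero.1 this
    have hadj : ∀ x ∈ M1, adjoint T x = adjoint Z x := by
      intro x hx
      have hw : adjoint T x - adjoint Z x ∈ M1 :=
        M1.sub_mem (hM1T T h.mem x hx) (hM1Z Z List.mem_cons_self x hx).2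
      set w := adjoint T x - adjoint Z x with hwd
      have e1 : ⟪w, w⟫_ℂ = 0 := by
        have e2 : ⟪w, w⟫_ℂ = ⟪w, adjoint T x⟫_ℂ - ⟪w, adjoint Z x⟫_ℂ := by
          conv_lhs => rw [hwd, inner_sub_right]
        rw [e2, adjoint_inner_right, adjoint_inner_right, hTx w hw, sub_self]
      have : w = 0 := inner_self_eq_zero.1 e1
      exact sub_eq_zero.1 this
    have h1 : ∀ x ∈ M1, T (adjoint T x) = adjoint T (T x) := by
      intro x hx
      have hZx := hM1Z Z List.mem_cons_self x hx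
      rw [hadj x hx, hTx x hx, hadj _ hZx.1, hTx _ hZx.2]
      exact congrArg (fun W : H →L[ℂ] H => W x) hZn.star_comm_self.eq.symm
    set M2 : Submodule ℂ H := M ⊓ M1ᗮ with hM2
    have hmem2 : ∀ x, x ∈ M2 ↔ x ∈ M ∧ x ∈ M1ᗮ := fun x => by rw [hM2, Submodule.mem_inf]
    have hM2c : IsClosed (M2 : Set H) := hMc.inter (Submodule.isClosed_orthogonal M1)
    have horth : ∀ V : H →L[ℂ] H, (∀ x ∈ M1, adjoint V x ∈ M1) → ∀ x ∈ M1ᗮ, V x ∈ M1ᗮ := by
      intro V hV x hx
      rw [Submodule.mem_orthogonal]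
      intro y hy
      rw [← adjoint_inner_left]
      exact (Submodule.mem_orthogonal _ _).1 hx _ (hV y hy)
    have hM2S : ∀ S ∈ 𝒮, ∀ x ∈ M2, S x ∈ M2 := by
      intro S hS x hx
      rw [hmem2] at hx ⊢
      exact ⟨hMS S hS x hx.1, horth S (hM1T S hS) x hx.2⟩
    have hM2Z : ∀ W ∈ l, ∀ x ∈ M2, W x ∈ M2 ∧ adjoint W x ∈ M2 := by
      intro W hW x hx
      have hW' : W ∈ Z :: l := List.mem_cons_of_mem _ hW
      rw [hmem2] at hx
      obtain ⟨a, b⟩ := hMZ W hW' x hx.1
      constructor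
      · rw [hmem2]
        exact ⟨a, horth W (fun y hy => (hM1Z W hW' y hy).2) x hx.2⟩
      · rw [hmem2]
        refine ⟨b, horth (adjoint W) (fun y hy => ?_) x hx.2⟩
        rw [adjoint_adjoint]
        exact (hM1Z W hW' y hy).1
    have hprod : ∀ x ∈ M2, (l.map (fun Z => T - Z)).prod x = 0 := by
      intro x hx
      have hy : (l.map (fun Z => T - Z)).prod x ∈ M2 := by
        refine list_inv M2 _ ?_ x hx
        intro V hV y hy
        obtain ⟨W, hW, rfl⟩ := List.mem_map.1 hV
        show T y - W y ∈ M2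
        exact M2.sub_mem (hM2S T h.mem y hy) (hM2Z W hW y hy).1
      set y := (l.map (fun Z => T - Z)).prod x with hyd
      have e : U y = 0 := by
        have := h0 x ((hmem2 x).1 hx).1
        rw [List.map_cons, List.prod_cons] at this
        exact this
      have hy1 : y ∈ M1 := (hmem1 y).2 ⟨((hmem2 y).1 hy).1, e⟩
      have : ⟪y, y⟫_ℂ = 0 := (Submodule.mem_orthogonal _ _).1 ((hmem2 y).1 hy).2 y hy1
      exact inner_self_eq_zero.1 this
    have h2 := ih (fun W hW => hZ W (List.mem_cons_of_mem _ hW))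
      (fun W hW V hV => hcom W (List.mem_cons_of_mem _ hW) V (List.mem_cons_of_mem _ hV))
      M2 hM2c hM2S hM2Z hprod
    intro x hx
    have : CompleteSpace M1 := hM1c.completeSpace_coe
    set P := M1.starProjection with hP
    have p1 : P x ∈ M1 := Submodule.starProjection_apply_mem _ _
    have p2 : x - P x ∈ M1ᗮ := Submodule.sub_starProjection_mem_orthogonal (K := M1) x
    have p3 : x - P x ∈ M2 := (hmem2 _).2 ⟨M.sub_mem hx ((hmem1 _).1 p1).1, p2⟩
    have e1 := h1 _ p1
    have e2 := h2 _ p3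
    have e3 : x = P x + (x - P x) := by abel
    rw [e3, map_add, map_add, map_add, map_add, e1, e2]

lemma comm_aeval {S T : H →L[ℂ] H} (h : Commute S T) (p : ℂ[X]) : Commute S (aeval T p) := by
  have h1 : aeval T p ∈ Subalgebra.centralizer ℂ ({S} : Set (H →L[ℂ] H)) := by
    have h2 : Algebra.adjoin ℂ {T} ≤ Subalgebra.centralizer ℂ ({S} : Set (H →L[ℂ] H)) := by
      rw [Algebra.adjoin_le_iff, Set.singleton_subset_iff]
      show T ∈ Subalgebra.centralizer ℂ ({S} : Set (H →L[ℂ] H))
      rw [Subalgebra.mem_centralizer_iff]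
      intro g hg
      rw [Set.mem_singleton_iff.1 hg]
      exact h.eq
    exact h2 (aeval_mem_adjoin_singleton ℂ T)
  rw [Subalgebra.mem_centralizer_iff] at h1
  exact h1 S rfl

/-- the closure of the range of an operator is invariant under the operators commuting with it -/
lemma range_inv {S F : H →L[ℂ] H} (h : Commute S F) :
    ∀ x ∈ (LinearMap.range (F : H →ₗ[ℂ] H)).topologicalClosure,
      S x ∈ (LinearMap.range (F : H →ₗ[ℂ] H)).topologicalClosure := by
  intro x hx
  have hcl : IsClosed (((LinearMap.range (F : H →ₗ[ℂ] H)).topologicalClosure : Submodule ℂ H) :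
      Set H) := Submodule.isClosed_topologicalClosure _
  have : (LinearMap.range (F : H →ₗ[ℂ] H)).topologicalClosure ≤
      ((LinearMap.range (F : H →ₗ[ℂ] H)).topologicalClosure).comap (S : H →ₗ[ℂ] H) := by
    refine Submodule.topologicalClosure_minimal _ ?_ (hcl.preimage S.continuous)
    rintro _ ⟨k, rfl⟩
    show S (F k) ∈ (LinearMap.range (F : H →ₗ[ℂ] H)).topologicalClosure
    rw [comm_apply h]
    exact Submodule.le_topologicalClosure _ ⟨_, rfl⟩
  exact this hx

/-- a polynomial identity over a ring of continuous functions may be checked pointwise -/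
lemma poly_ext {X : Type*} [TopologicalSpace X] (a b : (C(X, ℂ))[X])
    (h : ∀ x : X, a.map ((Pi.evalRingHom (fun _ : X => ℂ) x).comp ContinuousMap.coeFnRingHom) =
      b.map ((Pi.evalRingHom (fun _ : X => ℂ) x).comp ContinuousMap.coeFnRingHom)) : a = b := by
  ext n x
  have := congrArg (fun q : ℂ[X] => q.coeff n) (h x)
  rw [coeff_map, coeff_map] at this
  exact this

/-- near a non-critical value the self-commutator vanishes -/
lemma local_vanish {𝒮 : Set (H →L[ℂ] H)} {T : H →L[ℂ] H} (h : Ctx 𝒮 T) (p : ℂ[X])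
    (hp : 0 < p.natDegree) (N : H →L[ℂ] H) (hNd : aeval T p = N) (hN : IsStarNormal N)
    (l0 : spectrum ℂ N) (hl0 : ∀ z, p.eval z = l0.1 → p.derivative.eval z ≠ 0) :
    ∃ f : C(spectrum ℂ N, ℂ), f l0 ≠ 0 ∧
      (T * adjoint T - adjoint T * T) * cfcHom hN f = 0 := by
  obtain ⟨ι, hι, δ, ρ, G, hδ, hρc, hGc, hρ1, hfac⟩ := local_roots p l0.1 hp hl0
  set φ := cfcHom (R := ℂ) hN with hφ
  let ρ' : C(spectrum ℂ N, ℂ) := ⟨fun z => ρ z.1, hρc.comp continuous_subtype_val⟩
  let G' : ι → C(spectrum ℂ N, ℂ) := fun i => ⟨fun z => G i z.1, (hGc i).comp continuous_subtype_val⟩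
  let idN : C(spectrum ℂ N, ℂ) := ⟨fun z => z.1, continuous_subtype_val⟩
  let f : C(spectrum ℂ N, ℂ) := ⟨fun z => ((max 0 (δ - ‖z.1 - l0.1‖) : ℝ) : ℂ),
    Complex.continuous_ofReal.comp (continuous_const.max (continuous_const.sub
      (continuous_subtype_val.sub continuous_const).norm))⟩
  have hid : φ idN = N := cfcHom_id hN
  -- commutation
  have hcomm : ∀ S ∈ 𝒮, ∀ g, Commute S (φ g) := by
    intro S hS g
    have c1 : Commute S N := by rw [← hNd]; exact comm_aeval (h.comm S hS) p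
    have c2 : Commute S (star N) := hN.commute_star_right c1
    exact (Commute.cfcHom hN c1.symm c2.symm g).symm
  have hcφ : ∀ g k, Commute (φ g) (φ k) := by
    intro g k
    show φ g * φ k = φ k * φ g
    rw [← map_mul, ← map_mul, mul_comm]
  have hnorm : ∀ g, IsStarNormal (φ g) := by
    intro g
    refine ⟨?_⟩
    rw [← map_star]
    exact hcφ _ _
  -- polynomial identity
  have hid2 : p.map (algebraMap ℂ C(spectrum ℂ N, ℂ)) - C ρ' =
      C (algebraMap ℂ C(spectrum ℂ N, ℂ) p.leadingCoeff) * ∏ i, (X - C (G' i)) := by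
    apply poly_ext
    intro z
    rw [Polynomial.map_sub, Polynomial.map_mul, Polynomial.map_prod, Polynomial.map_map, map_C,
      map_C]
    simp only [Polynomial.map_sub, map_X, map_C]
    have e1 : ((Pi.evalRingHom (fun _ : spectrum ℂ N => ℂ) z).comp
        ContinuousMap.coeFnRingHom).comp (algebraMap ℂ C(spectrum ℂ N, ℂ)) = RingHom.id ℂ := by
      ext a
      rfl
    rw [e1, Polynomial.map_id]
    exact hfac z.1
  let Ψ : (C(spectrum ℂ N, ℂ))[X] →+* (H →L[ℂ] H) :=
    eval₂RingHom' (φ : C(spectrum ℂ N, ℂ) →+* (H →L[ℂ] H)) T (fun g => (hcomm T h.mem g).symm)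
  have hΨC : ∀ g, Ψ (C g) = φ g := fun g => eval₂_C _ _
  have hΨX : Ψ X = T := eval₂_X _ _
  have hΨp : Ψ (p.map (algebraMap ℂ C(spectrum ℂ N, ℂ))) = N := by
    show eval₂ (φ : C(spectrum ℂ N, ℂ) →+* (H →L[ℂ] H)) T
      (p.map (algebraMap ℂ C(spectrum ℂ N, ℂ))) = N
    rw [eval₂_map]
    have e1 : (φ : C(spectrum ℂ N, ℂ) →+* (H →L[ℂ] H)).comp (algebraMap ℂ C(spectrum ℂ N, ℂ)) =
        algebraMap ℂ (H →L[ℂ] H) := by
      ext a : 1
      exact φ.commutes' a
    rw [e1]
    exact hNd
  have hkey : N - φ ρ' = algebraMap ℂ (H →L[ℂ] H) p.leadingCoeff *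
      ((Finset.univ.toList.map G').map (fun g => T - φ g)).prod := by
    have e0 : Ψ (p.map (algebraMap ℂ C(spectrum ℂ N, ℂ)) - C ρ') = N - φ ρ' := by
      have := map_sub Ψ (p.map (algebraMap ℂ C(spectrum ℂ N, ℂ))) (C ρ')
      rw [this, hΨC, hΨp]
    have e00 : Ψ (C (algebraMap ℂ C(spectrum ℂ N, ℂ) p.leadingCoeff) * ∏ i, (X - C (G' i))) =
        φ (algebraMap ℂ C(spectrum ℂ N, ℂ) p.leadingCoeff) * Ψ (∏ i, (X - C (G' i))) := by
      have := map_mul Ψ (C (algebraMap ℂ C(spectrum ℂ N, ℂ) p.leadingCoeff)) (∏ i, (X - C (G' i)))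
      rw [this, hΨC]
    rw [← e0, hid2, e00]
    have e1 : φ (algebraMap ℂ C(spectrum ℂ N, ℂ) p.leadingCoeff) =
        algebraMap ℂ (H →L[ℂ] H) p.leadingCoeff := φ.commutes' _
    rw [e1, ← Finset.prod_map_toList, map_list_prod, List.map_map, List.map_map]
    congr 2
    apply List.map_congr_left
    intro i _
    show Ψ (X - C (G' i)) = T - φ (G' i)
    have := map_sub Ψ X (C (G' i))
    rw [this, hΨX, hΨC]
  have hf : (idN - ρ') * f = 0 := by
    ext z
    show (z.1 - ρ z.1) * ((max 0 (δ - ‖z.1 - l0.1‖) : ℝ) : ℂ) = 0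
    by_cases hz : ‖z.1 - l0.1‖ ≤ δ
    · rw [hρ1 z.1 hz, sub_self, zero_mul]
    · rw [max_eq_left (by linarith [not_le.1 hz])]
      simp
  have hf2 : (N - φ ρ') * φ f = 0 := by
    have := congrArg φ hf
    rwa [map_mul, map_sub, hid, map_zero] at this
  set M : Submodule ℂ H := (LinearMap.range (φ f : H →ₗ[ℂ] H)).topologicalClosure with hM
  have hMc : IsClosed (M : Set H) := Submodule.isClosed_topologicalClosure _
  have hlc : p.leadingCoeff ≠ 0 := by
    intro h0
    rw [leadingCoeff_eq_zero] at h0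
    rw [h0] at hp
    simp at hp
  have hMN : ∀ x ∈ M, (N - φ ρ') x = 0 := by
    intro x hx
    have hle : M ≤ LinearMap.ker ((N - φ ρ' : H →L[ℂ] H) : H →ₗ[ℂ] H) := by
      refine Submodule.topologicalClosure_minimal _ ?_ (ContinuousLinearMap.isClosed_ker _)
      rintro _ ⟨k, rfl⟩
      rw [LinearMap.mem_ker]
      exact congrArg (fun W : H →L[ℂ] H => W k) hf2
    exact hle hx
  have hK := list_normal h ((Finset.univ.toList.map G').map (fun g => φ g))
    (by
      intro Z hZ
      obtain ⟨g, -, rfl⟩ := List.mem_map.1 hZ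
      exact ⟨hnorm g, fun S hS => hcomm S hS g⟩)
    (by
      intro Z hZ W hW
      obtain ⟨g, -, rfl⟩ := List.mem_map.1 hZ
      obtain ⟨k, -, rfl⟩ := List.mem_map.1 hW
      exact hcφ g k)
    M hMc (fun S hS => range_inv (hcomm S hS f))
    (by
      intro Z hZ x hx
      obtain ⟨g, -, rfl⟩ := List.mem_map.1 hZ
      refine ⟨range_inv (hcφ g f) x hx, ?_⟩
      have : adjoint (φ g) = φ (star g) := (map_star φ g).symm
      rw [this]
      exact range_inv (hcφ _ f) x hx)
    (by
      intro x hx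
      have e1 := hMN x hx
      rw [hkey] at e1
      have e2 : p.leadingCoeff • (((Finset.univ.toList.map G').map (fun g => T - φ g)).prod x) = 0 := by
        have : (algebraMap ℂ (H →L[ℂ] H) p.leadingCoeff *
          ((Finset.univ.toList.map G').map (fun g => T - φ g)).prod) x =
          p.leadingCoeff • (((Finset.univ.toList.map G').map (fun g => T - φ g)).prod x) := by
          rw [Algebra.algebraMap_eq_smul_one, smul_mul_assoc, one_mul]; rfl
        rw [← this]; exact e1
      have e3 := (smul_eq_zero.1 e2).resolve_left hlc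
      rw [List.map_map]
      exact e3)
  refine ⟨f, ?_, ?_⟩
  · show ((max 0 (δ - ‖l0.1 - l0.1‖) : ℝ) : ℂ) ≠ 0
    rw [sub_self, norm_zero, sub_zero, max_eq_right hδ.le]
    exact_mod_cast hδ.ne'
  · ext x
    have e := hK (φ f x) (Submodule.le_topologicalClosure _ ⟨x, rfl⟩)
    show T (adjoint T (φ f x)) - adjoint T (T (φ f x)) = 0
    rw [e, sub_self]

/-- If a central element `T` of a reductive set has a non-constant polynomial `p` with `p(T)`
normal, then `T` is normal. -/
theorem root_normal' {𝒮 : Set (H →L[ℂ] H)} {T : H →L[ℂ] H} (h : Ctx 𝒮 T) (p : ℂ[X])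
    (hp : 0 < p.natDegree) (N : H →L[ℂ] H) (hNd : aeval T p = N) (hN : IsStarNormal N) :
    IsStarNormal T := by
  classical
  set φ := cfcHom (R := ℂ) hN with hφ
  set κ : H →L[ℂ] H := T * adjoint T - adjoint T * T with hκ
  let idN : C(spectrum ℂ N, ℂ) := ⟨fun z => z.1, continuous_subtype_val⟩
  have hid : φ idN = N := cfcHom_id hN
  let I : Ideal C(spectrum ℂ N, ℂ) :=
    { carrier := {f | κ * φ f = 0}
      add_mem' := by
        intro f g hf hg
        show κ * φ (f + g) = 0
        rw [map_add, mul_add, hf, hg, add_zero]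
      zero_mem' := by
        show κ * φ 0 = 0
        rw [map_zero, mul_zero]
      smul_mem' := by
        intro c f hf
        show κ * φ (c • f) = 0
        rw [smul_eq_mul, mul_comm, map_mul, ← mul_assoc, hf, zero_mul] }
  have hIc : IsClosed (I : Set C(spectrum ℂ N, ℂ)) := by
    show IsClosed {f | κ * φ f = 0}
    exact isClosed_eq (continuous_const.mul (cfcHom_continuous hN)) continuous_const
  have hI := ContinuousMap.idealOfSet_ofIdeal_isClosed hIc
  have hd0 : p.derivative ≠ 0 := by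
    intro h0
    have := derivative_eq_zero.1 h0
    omega
  let Δ : ℂ[X] := ∏ r ∈ p.derivative.roots.toFinset, (X - C (p.eval r))
  have hΔ0 : Δ ≠ 0 := (monic_prod_of_monic _ _ (fun r _ => monic_X_sub_C _)).ne_zero
  let fΔ : C(spectrum ℂ N, ℂ) := aeval idN Δ
  have hfΔ : ∀ z, fΔ z = Δ.eval z.1 := by
    intro z
    have := Polynomial.hom_eval₂ Δ (algebraMap ℂ C(spectrum ℂ N, ℂ))
      ((Pi.evalRingHom (fun _ : spectrum ℂ N => ℂ) z).comp ContinuousMap.coeFnRingHom) idN
    have e1 : ((Pi.evalRingHom (fun _ : spectrum ℂ N => ℂ) z).comp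
        ContinuousMap.coeFnRingHom).comp (algebraMap ℂ C(spectrum ℂ N, ℂ)) = RingHom.id ℂ := by
      ext a
      rfl
    rw [e1] at this
    exact this
  have hφΔ : φ fΔ = aeval N Δ := by
    have e' : aeval (φ idN) Δ = φ (aeval idN Δ) :=
      Polynomial.aeval_algHom_apply φ.toAlgHom idN Δ
    rw [hid] at e'
    exact e'.symm
  have hmem : fΔ ∈ I := by
    rw [← hI, ContinuousMap.mem_idealOfSet]
    intro z hz
    rw [hfΔ]
    by_contra hne
    apply hz
    have hcrit : ∀ w, p.eval w = z.1 → p.derivative.eval w ≠ 0 := by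
      intro w hw hw'
      apply hne
      show (∏ r ∈ p.derivative.roots.toFinset, (X - C (p.eval r))).eval z.1 = 0
      rw [eval_prod]
      refine Finset.prod_eq_zero (i := w) ?_ ?_
      · rw [Multiset.mem_toFinset, mem_roots hd0]
        exact hw'
      · rw [eval_sub, eval_X, eval_C, hw, sub_self]
    obtain ⟨f, hf1, hf2⟩ := local_vanish h p hp N hNd hN z hcrit
    rw [ContinuousMap.mem_setOfIdeal]
    exact ⟨f, hf2, hf1⟩
  have hκΔ : κ * φ fΔ = 0 := hmem
  have hnW : IsStarNormal (φ fΔ) := by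
    refine ⟨?_⟩
    show star (φ fΔ) * φ fΔ = φ fΔ * star (φ fΔ)
    rw [← map_star, ← map_mul, ← map_mul, mul_comm]
  -- the kernel part
  set q : ℂ[X] := Δ.comp p with hq
  have hq0 : q ≠ 0 := by
    intro h0
    rw [hq, Polynomial.comp_eq_zero_iff] at h0
    rcases h0 with h0 | ⟨-, h0⟩
    · exact hΔ0 h0
    · rw [h0, natDegree_C] at hp
      exact lt_irrefl _ hp
  have hWq : φ fΔ = aeval T q := by rw [hφΔ, ← hNd, hq, aeval_comp]
  have hSW : ∀ S ∈ 𝒮, Commute S (φ fΔ) := by
    intro S hS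
    rw [hWq]
    exact comm_aeval (h.comm S hS) q
  have hkerκ : ∀ x, φ fΔ x = 0 → κ x = 0 := by
    intro x hx
    set M : Submodule ℂ H := LinearMap.ker (φ fΔ : H →ₗ[ℂ] H) with hM
    have hMc : IsClosed (M : Set H) := ContinuousLinearMap.isClosed_ker _
    have hfac := C_leadingCoeff_mul_prod_multiset_X_sub_C
      (IsAlgClosed.card_roots_eq_natDegree (p := q))
    have hlcq : q.leadingCoeff ≠ 0 := leadingCoeff_ne_zero.2 hq0
    have hprodq : φ fΔ = algebraMap ℂ (H →L[ℂ] H) q.leadingCoeff *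
        ((q.roots.toList.map (fun z => algebraMap ℂ (H →L[ℂ] H) z)).map (fun Z => T - Z)).prod := by
      rw [hWq]
      conv_lhs => rw [← hfac]
      rw [map_mul, aeval_C, ← Multiset.prod_map_toList, map_list_prod, List.map_map, List.map_map]
      congr 2
      apply List.map_congr_left
      intro z _
      show aeval T (X - C z) = T - algebraMap ℂ (H →L[ℂ] H) z
      rw [map_sub, aeval_X, aeval_C]
    have hsc : ∀ (z : ℂ) (y : H), algebraMap ℂ (H →L[ℂ] H) z y = z • y := by
      intro z y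
      rw [Algebra.algebraMap_eq_smul_one]; rfl
    have hstar : ∀ z : ℂ, adjoint (algebraMap ℂ (H →L[ℂ] H) z) =
        algebraMap ℂ (H →L[ℂ] H) (star z) := fun z => (algebraMap_star_comm z).symm
    have hK := list_normal h (q.roots.toList.map (fun z => algebraMap ℂ (H →L[ℂ] H) z))
      (by
        intro Z hZ
        obtain ⟨z, -, rfl⟩ := List.mem_map.1 hZ
        refine ⟨⟨?_⟩, fun S _ => (Algebra.commutes z S).symm⟩
        show adjoint (algebraMap ℂ (H →L[ℂ] H) z) * algebraMap ℂ (H →L[ℂ] H) z =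
          algebraMap ℂ (H →L[ℂ] H) z * adjoint (algebraMap ℂ (H →L[ℂ] H) z)
        rw [hstar]
        exact Algebra.commutes _ _)
      (by
        intro Z hZ W hW
        obtain ⟨z, -, rfl⟩ := List.mem_map.1 hZ
        exact Algebra.commutes _ _)
      M hMc
      (by
        intro S hS y hy
        rw [hM, LinearMap.mem_ker] at hy ⊢
        have hy' : φ fΔ y = 0 := hy
        show φ fΔ (S y) = 0
        rw [← comm_apply (hSW S hS), hy', map_zero])
      (by
        intro Z hZ y hy
        obtain ⟨z, -, rfl⟩ := List.mem_map.1 hZ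
        constructor
        · rw [hsc]; exact M.smul_mem _ hy
        · rw [hstar, hsc]; exact M.smul_mem _ hy)
      (by
        intro y hy
        have hy' : φ fΔ y = 0 := hy
        rw [hprodq] at hy'
        have e2 : q.leadingCoeff • (((q.roots.toList.map
            (fun z => algebraMap ℂ (H →L[ℂ] H) z)).map (fun Z => T - Z)).prod y) = 0 := by
          rw [← hsc]; exact hy'
        exact (smul_eq_zero.1 e2).resolve_left hlcq)
    have hx' : x ∈ M := hx
    have e := hK x hx'
    show T (adjoint T x) - adjoint T (T x) = 0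
    rw [e, sub_self]
  have hranκ : ∀ x ∈ (LinearMap.range (φ fΔ : H →ₗ[ℂ] H)).topologicalClosure, κ x = 0 := by
    intro x hx
    have hle : (LinearMap.range (φ fΔ : H →ₗ[ℂ] H)).topologicalClosure ≤
        LinearMap.ker (κ : H →ₗ[ℂ] H) := by
      refine Submodule.topologicalClosure_minimal _ ?_ (ContinuousLinearMap.isClosed_ker _)
      rintro _ ⟨k, rfl⟩
      rw [LinearMap.mem_ker]
      exact congrArg (fun W : H →L[ℂ] H => W k) hκΔ
    exact hle hx
  have hκ0 : κ = 0 := by
    ext x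
    set V : Submodule ℂ H := (LinearMap.range (φ fΔ : H →ₗ[ℂ] H)).topologicalClosure with hV
    have hVc : IsClosed (V : Set H) := Submodule.isClosed_topologicalClosure _
    have : CompleteSpace V := hVc.completeSpace_coe
    have p1 : V.starProjection x ∈ V := Submodule.starProjection_apply_mem _ _
    have p2 : x - V.starProjection x ∈ Vᗮ := Submodule.sub_starProjection_mem_orthogonal (K := V) x
    have p3 : φ fΔ (x - V.starProjection x) = 0 := by
      have e1 : Vᗮ = (LinearMap.range (φ fΔ : H →ₗ[ℂ] H))ᗮ := Submodule.orthogonal_closure _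
      have e2 := hnW.orthogonal_range
      rw [e1] at p2
      rw [e2] at p2
      exact p2
    have e3 : x = V.starProjection x + (x - V.starProjection x) := by abel
    rw [e3, map_add, hranκ _ p1, hkerκ _ p3, add_zero]
    rfl
  refine ⟨?_⟩
  show adjoint T * T = T * adjoint T
  exact (sub_eq_zero.1 hκ0).symm

theorem root_normal {𝒮 : Set (H →L[ℂ] H)} {T : H →L[ℂ] H} (h : Ctx 𝒮 T) (p : ℂ[X])
    (hp : 0 < p.natDegree) (hN : IsStarNormal (aeval T p)) : IsStarNormal T :=
  root_normal' h p hp _ rfl hN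

end

end Pool.Agent.Y852.RQ
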