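import Mathlib

/-!
# Vector functionals on commutative *-algebras of operators
-/

set_option autoImplicit false
set_option linter.unusedSectionVars false
open scoped InnerProductSpace

namespace Pool.Agent.Y852.RQ

universe u v w
open ContinuousLinearMap

section polar
variable {E : Type w} [NormedAddCommGroup E] [InnerProductSpace ℂ E] [CompleteSpace E]
variable {G : Type v} [NormedAddCommGroup G] [InnerProductSpace ℂ G] [CompleteSpace G]

/-- the partial isometry of the polar decomposition -/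
lemma polar (P : E →L[ℂ] G) : ∃ W : E →L[ℂ] G, (∀ u, P u = 0 → W u = 0) ∧
    (∀ u, (∀ k, P k = 0 → ⟪k, u⟫_ℂ = 0) → ‖W u‖ = ‖u‖) ∧
    ∀ (C : E →L[ℂ] E) (C' : G →L[ℂ] G), (∀ u, C' (P u) = P (C u)) →
      (∀ u, adjoint C' (P u) = P (adjoint C u)) → ∀ u, C' (W u) = W (C u) := by
  set T : E →L[ℂ] E := (adjoint P).comp P with hT
  have hT0 : 0 ≤ T := by
    rw [nonneg_iff_isPositive]
    exact isPositive_adjoint_comp_self P
  set R : E →L[ℂ] E := CFC.sqrt T with hR
  have hRR : R * R = T := CFC.sqrt_mul_sqrt_self T hT0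
  have hRsa : adjoint R = R := (IsSelfAdjoint.of_nonneg (CFC.sqrt_nonneg T) : IsSelfAdjoint R)
  have hnorm : ∀ k, ‖P k‖ = ‖R k‖ := by
    intro k
    have h1 : ‖P k‖ ^ 2 = ‖R k‖ ^ 2 := by
      have e1 : ⟪P k, P k⟫_ℂ = ⟪R k, R k⟫_ℂ := by
        rw [← adjoint_inner_right]
        have e3 : ⟪R k, R k⟫_ℂ = ⟪k, R (R k)⟫_ℂ := by
          conv_rhs => rw [← hRsa]
          rw [adjoint_inner_right, hRsa]
        rw [e3]
        have e2 : R (R k) = adjoint P (P k) := congrArg (fun T : E →L[ℂ] E => T k) hRR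
        rw [e2]
      rw [inner_self_eq_norm_sq_to_K, inner_self_eq_norm_sq_to_K] at e1
      exact_mod_cast e1
    exact (sq_eq_sq₀ (norm_nonneg _) (norm_nonneg _)).1 h1
  have hker : ∀ k, P k = 0 ↔ R k = 0 := by
    intro k
    rw [← norm_eq_zero, hnorm, norm_eq_zero]
  set V : Submodule ℂ E := (LinearMap.range (R : E →ₗ[ℂ] E)).topologicalClosure with hV
  have hVc : IsClosed (V : Set E) := Submodule.isClosed_topologicalClosure _
  have : CompleteSpace V := hVc.completeSpace_coe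
  have hRV : ∀ k, R k ∈ V := fun k => Submodule.le_topologicalClosure _ ⟨k, rfl⟩
  have hVorth : ∀ k, k ∈ Vᗮ ↔ R k = 0 := by
    intro k
    have e1 : Vᗮ = (LinearMap.range (R : E →ₗ[ℂ] E))ᗮ := Submodule.orthogonal_closure _
    have e2 := R.orthogonal_range
    rw [hRsa] at e2
    rw [e1, e2]
    exact LinearMap.mem_ker
  let r : E →ₗ[ℂ] V := LinearMap.codRestrict V (R : E →ₗ[ℂ] E) hRV
  have hr : DenseRange r := by
    intro x
    rw [Metric.mem_closure_range_iff]
    intro ε hε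
    have hx : (x : E) ∈ closure (Set.range R) := by
      have := x.2
      exact this
    rw [Metric.mem_closure_range_iff] at hx
    obtain ⟨k, hk⟩ := hx ε hε
    exact ⟨k, hk⟩
  have hb : ∀ k, ‖(P : E →ₗ[ℂ] G) k‖ ≤ 1 * ‖r k‖ := by
    intro k
    rw [one_mul]
    show ‖P k‖ ≤ ‖R k‖
    rw [hnorm]
  set W0 : V →L[ℂ] G := LinearMap.extendOfNorm (P : E →ₗ[ℂ] G) r with hW0
  have h1 : ∀ k, W0 (r k) = P k := fun k => LinearMap.extendOfNorm_eq hr ⟨1, hb⟩ k
  set W : E →L[ℂ] G := W0.comp V.orthogonalProjectionOnto with hW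
  have hWV : ∀ x (hx : x ∈ V), W x = W0 ⟨x, hx⟩ := by
    intro x hx
    have : V.orthogonalProjectionOnto x = ⟨x, hx⟩ :=
      Submodule.orthogonalProjectionOnto_mem_subspace_eq_self (K := V) ⟨x, hx⟩
    show W0 (V.orthogonalProjectionOnto x) = _
    rw [this]
  have hWR : ∀ k, W (R k) = P k := by
    intro k
    rw [hWV _ (hRV k), ← h1 k]
    rfl
  have hWker : ∀ k, R k = 0 → W k = 0 := by
    intro k hk
    have : V.orthogonalProjectionOnto k = 0 :=
      Submodule.orthogonalProjectionOnto_apply_of_mem_orthogonal ((hVorth k).2 hk)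
    show W0 (V.orthogonalProjectionOnto k) = 0
    rw [this, map_zero]
  have hW0n : ∀ x : V, ‖W0 x‖ = ‖x‖ := by
    intro x
    have hcl : IsClosed {x : V | ‖W0 x‖ = ‖x‖} := isClosed_eq (W0.continuous.norm) continuous_norm
    refine hcl.closure_subset_iff.2 ?_ (hr x)
    rintro _ ⟨k, rfl⟩
    show ‖W0 (r k)‖ = ‖R k‖
    rw [h1, hnorm]
  refine ⟨W, fun u hu => hWker u ((hker u).1 hu), ?_, ?_⟩
  · intro u hu
    have huV : u ∈ V := by
      have e : u ∈ Vᗮᗮ := by
        rw [Submodule.mem_orthogonal]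
        intro k hk
        exact hu k ((hker k).2 ((hVorth k).1 hk))
      rwa [Submodule.orthogonal_orthogonal] at e
    rw [hWV u huV, hW0n]
    rfl
  · intro C C' h2 h3 u
    have hTC : Commute C T := by
      have e1 : ∀ k, C (adjoint P k) = adjoint P (C' k) := by
        intro k
        have : (adjoint C').comp P = P.comp (adjoint C) := by ext k; exact h3 k
        have := congrArg adjoint this
        rw [adjoint_comp, adjoint_comp, adjoint_adjoint, adjoint_adjoint] at this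
        exact (congrArg (fun T : G →L[ℂ] E => T k) this).symm
      ext k
      show C (adjoint P (P k)) = adjoint P (P (C k))
      rw [e1, h2]
    have hRC : Commute C R := (Commute.cfcₙ_nnreal hTC.symm _).symm
    have hRCa : ∀ k, C (R k) = R (C k) := fun k =>
      congrArg (fun T : E →L[ℂ] E => T k) hRC.eq
    have k1 : ∀ x ∈ V, C' (W x) = W (C x) := by
      intro x hx
      have hcl : IsClosed {x : E | C' (W x) = W (C x)} :=
        isClosed_eq (C'.comp W).continuous (W.comp C).continuous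
      have hx' : x ∈ closure (Set.range R) := hx
      refine hcl.closure_subset_iff.2 ?_ hx'
      rintro _ ⟨k, rfl⟩
      show C' (W (R k)) = W (C (R k))
      rw [hRCa, hWR, hWR, h2]
    have k2 : ∀ x, R x = 0 → C' (W x) = W (C x) := by
      intro x hx
      rw [hWker x hx, hWker (C x) (by rw [← hRCa, hx, map_zero]), map_zero]
    have p1 : V.starProjection u ∈ V := Submodule.starProjection_apply_mem _ _
    have p2 : u - V.starProjection u ∈ Vᗮ := Submodule.sub_starProjection_mem_orthogonal (K := V) u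
    have e3 : u = V.starProjection u + (u - V.starProjection u) := by abel
    rw [e3, map_add, map_add, map_add, map_add, k1 _ p1, k2 _ ((hVorth _).1 p2)]

end polar

section two
variable {H : Type u} [NormedAddCommGroup H] [InnerProductSpace ℂ H] [CompleteSpace H]
variable {E : Type w} [NormedAddCommGroup E] [InnerProductSpace ℂ E] [CompleteSpace E]

lemma starProj_comm (M : Submodule ℂ E) [M.HasOrthogonalProjection] (A : E →L[ℂ] E)
    (h1 : ∀ x ∈ M, A x ∈ M) (h2 : ∀ x ∈ M, adjoint A x ∈ M) (x : E) :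
    M.starProjection (A x) = A (M.starProjection x) := by
  have h3 : x - M.starProjection x ∈ Mᗮ := Submodule.sub_starProjection_mem_orthogonal (K := M) x
  have h4 : A (x - M.starProjection x) ∈ Mᗮ := by
    rw [Submodule.mem_orthogonal]
    intro u hu
    rw [← adjoint_inner_left]
    exact (Submodule.mem_orthogonal M _).1 h3 _ (h2 u hu)
  have h5 : A (M.starProjection x) ∈ M := h1 _ (Submodule.starProjection_apply_mem _ _)
  have h6 : A x = A (M.starProjection x) + A (x - M.starProjection x) := by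
    rw [← map_add]; congr 1; abel
  rw [h6, map_add, Submodule.starProjection_eq_self_iff.2 h5,
    (Submodule.starProjection_apply_eq_zero_iff (K := M)).2 h4, add_zero]

/-- Two vector functionals of a commutative *-algebra add up to a vector functional. -/
lemma two_aux (𝒟 : StarSubalgebra ℂ (H →L[ℂ] H)) (hc : ∀ a ∈ 𝒟, ∀ b ∈ 𝒟, Commute a b)
    (V1 V2 : H →L[ℂ] E) (a1 : ∀ x, adjoint V1 (V1 x) = x) (a2 : ∀ x, adjoint V2 (V2 x) = x)
    (a12 : ∀ x, adjoint V1 (V2 x) = 0) (a21 : ∀ x, adjoint V2 (V1 x) = 0)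
    (as : ∀ e, V1 (adjoint V1 e) + V2 (adjoint V2 e) = e) (x1 x2 : H) :
    ∃ y, ∀ d ∈ 𝒟, ‖d y‖ ^ 2 = ‖d x1‖ ^ 2 + ‖d x2‖ ^ 2 := by
  let D : (H →L[ℂ] H) → (E →L[ℂ] E) := fun d =>
    (V1.comp d).comp (adjoint V1) + (V2.comp d).comp (adjoint V2)
  have hD : ∀ d e, D d e = V1 (d (adjoint V1 e)) + V2 (d (adjoint V2 e)) := fun d e => rfl
  have hDstar : ∀ d, adjoint (D d) = D (adjoint d) := by
    intro d
    show adjoint ((V1.comp d).comp (adjoint V1) + (V2.comp d).comp (adjoint V2)) = _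
    rw [map_add, adjoint_comp, adjoint_comp, adjoint_comp, adjoint_comp, adjoint_adjoint,
      adjoint_adjoint]
    rfl
  have hD1 : ∀ d e, adjoint V1 (D d e) = d (adjoint V1 e) := by
    intro d e
    rw [hD, map_add, a1, a12, add_zero]
  have hD2 : ∀ d e, adjoint V2 (D d e) = d (adjoint V2 e) := by
    intro d e
    rw [hD, map_add, a2, a21, zero_add]
  have hDD : ∀ a ∈ 𝒟, ∀ b ∈ 𝒟, ∀ e, D a (D b e) = D b (D a e) := by
    intro a ha b hb e
    have h1 : ∀ x, a (b x) = b (a x) := fun x =>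
      congrArg (fun T : H →L[ℂ] H => T x) (hc a ha b hb).eq
    rw [hD a (D b e), hD1, hD2, hD b (D a e), hD1, hD2, h1, h1]
  set x0 : E := V1 x1 + V2 x2 with hx0
  have hx01 : adjoint V1 x0 = x1 := by rw [hx0, map_add, a1, a12, add_zero]
  have hx02 : adjoint V2 x0 = x2 := by rw [hx0, map_add, a2, a21, zero_add]
  -- the cyclic subspace
  let G0 : Submodule ℂ E :=
    { carrier := {e | ∃ d ∈ 𝒟, e = D d x0}
      add_mem' := by
        rintro _ _ ⟨a, ha, rfl⟩ ⟨b, hb, rfl⟩
        refine ⟨a + b, 𝒟.add_mem ha hb, ?_⟩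
        rw [hD, hD, hD]
        simp only [add_apply, map_add]
        abel
      zero_mem' := ⟨0, 𝒟.zero_mem, by rw [hD]; simp⟩
      smul_mem' := by
        rintro c _ ⟨a, ha, rfl⟩
        refine ⟨c • a, 𝒟.smul_mem ha c, ?_⟩
        rw [hD, hD]
        simp only [smul_apply, map_smul, smul_add] }
  have hG0 : ∀ d ∈ 𝒟, D d x0 ∈ G0 := fun d hd => ⟨d, hd, rfl⟩
  set G : Submodule ℂ E := G0.topologicalClosure with hG
  have hGc : IsClosed (G : Set E) := Submodule.isClosed_topologicalClosure _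
  have hG1 : ∀ d ∈ 𝒟, D d x0 ∈ G := fun d hd => Submodule.le_topologicalClosure _ (hG0 d hd)
  have hGinv : ∀ d ∈ 𝒟, ∀ x ∈ G, D d x ∈ G := by
    intro d hd x hx
    have : G ≤ G.comap (D d : E →ₗ[ℂ] E) := by
      refine Submodule.topologicalClosure_minimal _ ?_ (hGc.preimage (D d).continuous)
      rintro _ ⟨a, ha, rfl⟩
      show D d (D a x0) ∈ G
      have : D d (D a x0) = D (d * a) x0 := by
        rw [hD d, hD1, hD2, hD (d * a)]; rfl
      rw [this]
      exact hG1 _ (𝒟.mul_mem hd ha)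
    exact this hx
  have hstarmem : ∀ d ∈ 𝒟, adjoint d ∈ 𝒟 := fun d hd => 𝒟.star_mem' hd
  set G2 : Submodule ℂ E := G ⊓ LinearMap.ker (adjoint V1 : E →ₗ[ℂ] H) with hG2
  have hmem2 : ∀ x, x ∈ G2 ↔ x ∈ G ∧ adjoint V1 x = 0 := fun x => by
    rw [hG2, Submodule.mem_inf, LinearMap.mem_ker]; rfl
  have hG2c : IsClosed (G2 : Set E) := hGc.inter (ContinuousLinearMap.isClosed_ker _)
  have hG2inv : ∀ d ∈ 𝒟, ∀ x ∈ G2, D d x ∈ G2 := by
    intro d hd x hx
    rw [hmem2] at hx ⊢
    exact ⟨hGinv d hd x hx.1, by rw [hD1, hx.2, map_zero]⟩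
  have : CompleteSpace G := hGc.completeSpace_coe
  have : CompleteSpace G2 := hG2c.completeSpace_coe
  set g : E →L[ℂ] E := G.starProjection with hg
  set q : E →L[ℂ] E := G2.starProjection with hq
  have hgD : ∀ d ∈ 𝒟, ∀ e, g (D d e) = D d (g e) := fun d hd e =>
    starProj_comm G (D d) (hGinv d hd) (by rw [hDstar]; exact hGinv _ (hstarmem d hd)) e
  have hqD : ∀ d ∈ 𝒟, ∀ e, q (D d e) = D d (q e) := fun d hd e =>
    starProj_comm G2 (D d) (hG2inv d hd) (by rw [hDstar]; exact hG2inv _ (hstarmem d hd)) e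
  have hgG : ∀ e, g e ∈ G := fun e => Submodule.starProjection_apply_mem _ _
  have hqG2 : ∀ e, q e ∈ G2 := fun e => Submodule.starProjection_apply_mem _ _
  have hgid : ∀ e ∈ G, g e = e := fun e he => Submodule.starProjection_eq_self_iff.2 he
  have hqid : ∀ e ∈ G2, q e = e := fun e he => Submodule.starProjection_eq_self_iff.2 he
  have hgsa : adjoint g = g := (isStarProjection_starProjection (U := G)).isSelfAdjoint
  have hqsa : adjoint q = q := (isStarProjection_starProjection (U := G2)).isSelfAdjoint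
  have hqG : ∀ e, q e ∈ G := fun e => ((hmem2 _).1 (hqG2 e)).1
  have hqV : ∀ e, adjoint V1 (q e) = 0 := fun e => ((hmem2 _).1 (hqG2 e)).2
  -- the two intertwiners
  obtain ⟨W1, w1a, w1b, w1c⟩ := polar ((adjoint V1).comp g)
  obtain ⟨W2, w2a, w2b, w2c⟩ := polar ((adjoint V2).comp q)
  have i1 : ∀ d ∈ 𝒟, ∀ e, d (W1 e) = W1 (D d e) := by
    intro d hd
    refine w1c (D d) d ?_ ?_
    · intro e
      show d (adjoint V1 (g e)) = adjoint V1 (g (D d e))
      rw [hgD d hd, hD1]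
    · intro e
      show adjoint d (adjoint V1 (g e)) = adjoint V1 (g (adjoint (D d) e))
      rw [hDstar, hgD _ (hstarmem d hd), hD1]
  have i2 : ∀ d ∈ 𝒟, ∀ e, d (W2 e) = W2 (D d e) := by
    intro d hd
    refine w2c (D d) d ?_ ?_
    · intro e
      show d (adjoint V2 (q e)) = adjoint V2 (q (D d e))
      rw [hqD d hd, hD2]
    · intro e
      show adjoint d (adjoint V2 (q e)) = adjoint V2 (q (adjoint (D d) e))
      rw [hDstar, hqD _ (hstarmem d hd), hD2]
  have w1q : ∀ e, W1 (q e) = 0 := by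
    intro e
    apply w1a
    show adjoint V1 (g (q e)) = 0
    rw [hgid _ (hqG e), hqV]
  have w1g : ∀ e, W1 (g e) = W1 e := by
    intro e
    have : W1 (e - g e) = 0 := by
      apply w1a
      show adjoint V1 (g (e - g e)) = 0
      rw [map_sub, hgid _ (hgG e), sub_self, map_zero]
    rw [map_sub] at this
    exact (sub_eq_zero.1 this).symm
  have w2q : ∀ e, W2 (q e) = W2 e := by
    intro e
    have : W2 (e - q e) = 0 := by
      apply w2a
      show adjoint V2 (q (e - q e)) = 0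
      rw [map_sub, hqid _ (hqG2 e), sub_self, map_zero]
    rw [map_sub] at this
    exact (sub_eq_zero.1 this).symm
  have n1 : ∀ u ∈ G, ‖W1 u‖ = ‖u - q u‖ := by
    intro u hu
    have e1 : W1 u = W1 (u - q u) := by rw [map_sub, w1q, sub_zero]
    rw [e1]
    apply w1b
    intro k hk
    have hk' : adjoint V1 (g k) = 0 := hk
    have hkG2 : g k ∈ G2 := (hmem2 _).2 ⟨hgG k, hk'⟩
    have hm : u - q u ∈ G := G.sub_mem hu (hqG u)
    have e2 : ⟪k, u - q u⟫_ℂ = ⟪g k, u - q u⟫_ℂ := by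
      conv_lhs => rw [← hgid _ hm]
      conv_rhs => rw [← hgsa]
      rw [adjoint_inner_left]
    rw [e2]
    exact (Submodule.mem_orthogonal _ _).1
      (Submodule.sub_starProjection_mem_orthogonal (K := G2) u) _ hkG2
  have n2 : ∀ u, ‖W2 u‖ = ‖q u‖ := by
    intro u
    rw [← w2q u]
    apply w2b
    intro k hk
    have hk' : adjoint V2 (q k) = 0 := hk
    have hk0 : q k = 0 := by
      have := as (q k)
      rw [hk', hqV, map_zero, map_zero, add_zero] at this
      exact this.symm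
    have e2 : ⟪k, q u⟫_ℂ = ⟪q k, u⟫_ℂ := by
      conv_rhs => rw [← hqsa]
      rw [adjoint_inner_left]
    rw [e2, hk0, inner_zero_left]
  -- the cross operator
  set Z : E →L[ℂ] E := (adjoint W1).comp W2 with hZ
  have hZD : ∀ d ∈ 𝒟, ∀ e, Z (D d e) = D d (Z e) := by
    intro d hd e
    show adjoint W1 (W2 (D d e)) = D d (adjoint W1 (W2 e))
    rw [← i2 d hd]
    have h1 : (adjoint d).comp W1 = W1.comp (D (adjoint d)) := by
      ext e; exact i1 _ (hstarmem d hd) e
    have h2 := congrArg adjoint h1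
    rw [adjoint_comp, adjoint_comp, adjoint_adjoint, hDstar, adjoint_adjoint] at h2
    exact congrArg (fun T : H →L[ℂ] E => T (W2 e)) h2
  have hqZ : ∀ e, q (Z e) = 0 := by
    intro e
    have h1 : W1.comp q = 0 := by ext e; exact w1q e
    have h2 := congrArg adjoint h1
    rw [adjoint_comp, hqsa, map_zero] at h2
    exact congrArg (fun T : H →L[ℂ] E => T (W2 e)) h2
  have hgZ : ∀ e, g (Z e) = Z e := by
    intro e
    have h1 : W1.comp g = W1 := by ext e; exact w1g e
    have h2 := congrArg adjoint h1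
    rw [adjoint_comp, hgsa] at h2
    exact congrArg (fun T : H →L[ℂ] E => T (W2 e)) h2
  have hZq : ∀ e, Z (q e) = Z e := fun e => by
    show adjoint W1 (W2 (q e)) = adjoint W1 (W2 e)
    rw [w2q]
  have hZx : ∀ d ∈ 𝒟, ⟪D d x0, Z x0⟫_ℂ = 0 := by
    intro d hd
    have hbound : ∀ ε : ℝ, 0 < ε → ‖⟪D d x0, Z x0⟫_ℂ‖ ≤
        (‖D d x0‖ * ‖Z‖ + ‖D d‖ * ‖Z x0‖) * ε := by
      intro ε hε
      have hx : q x0 ∈ closure (G0 : Set E) := hqG x0
      obtain ⟨_, ⟨c, hcm, rfl⟩, hdist⟩ := Metric.mem_closure_iff.1 hx ε hε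
      rw [dist_eq_norm] at hdist
      set N1 : E →L[ℂ] E := q - D c with hN1
      have hN1a : ‖N1 x0‖ < ε := hdist
      have hN1star : adjoint N1 = q - D (adjoint c) := by rw [hN1, map_sub, hqsa, hDstar]
      have hN1n : IsStarNormal N1 := by
        refine ⟨?_⟩
        show adjoint N1 * N1 = N1 * adjoint N1
        rw [hN1star, hN1]
        ext e
        show q (q e - D c e) - D (adjoint c) (q e - D c e) =
          q (q e - D (adjoint c) e) - D c (q e - D (adjoint c) e)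
        rw [map_sub, map_sub, map_sub, map_sub, hqD c hcm, hqD _ (hstarmem c hcm),
          hDD c hcm _ (hstarmem c hcm)]
        abel
      have hN1b : ‖adjoint N1 x0‖ = ‖N1 x0‖ := (isStarNormal_iff_norm_eq_adjoint.1 hN1n x0).symm
      have e1 : ⟪D d x0, Z x0⟫_ℂ = ⟪D d x0, Z (N1 x0)⟫_ℂ - ⟪D d (adjoint N1 x0), Z x0⟫_ℂ := by
        have f1 : Z (N1 x0) = Z x0 - D c (Z x0) := by
          show Z (q x0 - D c x0) = _
          rw [map_sub, hZq, hZD c hcm]
        have f2 : D d (adjoint N1 x0) = adjoint N1 (D d x0) := by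
          rw [hN1star]
          show D d (q x0 - D (adjoint c) x0) = q (D d x0) - D (adjoint c) (D d x0)
          rw [map_sub, hqD d hd, hDD d hd _ (hstarmem c hcm)]
        have f3 : N1 (Z x0) = - D c (Z x0) := by
          show q (Z x0) - D c (Z x0) = _
          rw [hqZ, zero_sub]
        rw [f1, f2, adjoint_inner_left, f3, inner_sub_right, inner_neg_right]
        ring
      rw [e1]
      have b1 : ‖⟪D d x0, Z (N1 x0)⟫_ℂ‖ ≤ ‖D d x0‖ * (‖Z‖ * ε) := by
        refine (norm_inner_le_norm _ _).trans ?_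
        refine mul_le_mul_of_nonneg_left ?_ (norm_nonneg _)
        refine (Z.le_opNorm _).trans ?_
        exact mul_le_mul_of_nonneg_left hN1a.le (norm_nonneg _)
      have b2 : ‖⟪D d (adjoint N1 x0), Z x0⟫_ℂ‖ ≤ (‖D d‖ * ε) * ‖Z x0‖ := by
        refine (norm_inner_le_norm _ _).trans ?_
        refine mul_le_mul_of_nonneg_right ?_ (norm_nonneg _)
        refine ((D d).le_opNorm _).trans ?_
        rw [hN1b]
        exact mul_le_mul_of_nonneg_left hN1a.le (norm_nonneg _)
      calc _ ≤ ‖⟪D d x0, Z (N1 x0)⟫_ℂ‖ + ‖⟪D d (adjoint N1 x0), Z x0⟫_ℂ‖ := norm_sub_le _ _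
        _ ≤ ‖D d x0‖ * (‖Z‖ * ε) + (‖D d‖ * ε) * ‖Z x0‖ := add_le_add b1 b2
        _ = _ := by ring
    by_contra hne
    have hpos : 0 < ‖⟪D d x0, Z x0⟫_ℂ‖ := norm_pos_iff.2 hne
    set A := ‖D d x0‖ * ‖Z‖ + ‖D d‖ * ‖Z x0‖ with hA
    have hA0 : 0 ≤ A := by positivity
    have := hbound (‖⟪D d x0, Z x0⟫_ℂ‖ / (2 * (A + 1))) (by positivity)
    rw [mul_div_assoc', le_div_iff₀ (by positivity)] at this
    nlinarith
  have hZ0 : Z x0 = 0 := by
    have hmem : Z x0 ∈ G := by rw [← hgZ]; exact hgG _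
    have horth : Z x0 ∈ Gᗮ := by
      rw [hG, Submodule.orthogonal_closure, Submodule.mem_orthogonal]
      rintro _ ⟨d, hd, rfl⟩
      exact hZx d hd
    exact inner_self_eq_zero.1 ((Submodule.mem_orthogonal _ _).1 horth _ hmem)
  refine ⟨W1 x0 + W2 x0, fun d hd => ?_⟩
  set u := D d x0 with hu
  have huG : u ∈ G := hG1 d hd
  have e1 : d (W1 x0 + W2 x0) = W1 u + W2 u := by rw [map_add, i1 d hd, i2 d hd]
  have e2 : ⟪W1 u, W2 u⟫_ℂ = 0 := by
    rw [← adjoint_inner_right]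
    have : adjoint W1 (W2 u) = 0 := by
      have : Z u = 0 := by rw [hu, hZD d hd, hZ0, map_zero]
      exact this
    rw [this, inner_zero_right]
  have e3 : ‖W1 u + W2 u‖ ^ 2 = ‖W1 u‖ ^ 2 + ‖W2 u‖ ^ 2 := by
    have := norm_add_sq_eq_norm_sq_add_norm_sq_of_inner_eq_zero (W1 u) (W2 u) e2
    rw [sq, sq, sq]; exact this
  have e4 : ‖u‖ ^ 2 = ‖u - q u‖ ^ 2 + ‖q u‖ ^ 2 := by
    have h0 : ⟪u - q u, q u⟫_ℂ = 0 := by
      have := (Submodule.mem_orthogonal' _ _).1
        (Submodule.sub_starProjection_mem_orthogonal (K := G2) u) _ (hqG2 u)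
      exact this
    have := norm_add_sq_eq_norm_sq_add_norm_sq_of_inner_eq_zero (u - q u) (q u) h0
    rw [sub_add_cancel] at this
    rw [sq, sq, sq]; exact this
  have e5 : ‖u‖ ^ 2 = ‖d x1‖ ^ 2 + ‖d x2‖ ^ 2 := by
    have hu' : u = V1 (d x1) + V2 (d x2) := by rw [hu, hD, hx01, hx02]
    have h0 : ⟪V1 (d x1), V2 (d x2)⟫_ℂ = 0 := by
      rw [← adjoint_inner_right, a12, inner_zero_right]
    have := norm_add_sq_eq_norm_sq_add_norm_sq_of_inner_eq_zero _ _ h0
    have m1 : ∀ x, ‖V1 x‖ = ‖x‖ := by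
      intro x
      have h1 : ⟪V1 x, V1 x⟫_ℂ = ⟪x, x⟫_ℂ := by rw [← adjoint_inner_right, a1]
      rw [inner_self_eq_norm_sq_to_K, inner_self_eq_norm_sq_to_K] at h1
      have h2 : ‖V1 x‖ ^ 2 = ‖x‖ ^ 2 := by exact_mod_cast h1
      exact (sq_eq_sq₀ (norm_nonneg _) (norm_nonneg _)).1 h2
    have m2 : ∀ x, ‖V2 x‖ = ‖x‖ := by
      intro x
      have h1 : ⟪V2 x, V2 x⟫_ℂ = ⟪x, x⟫_ℂ := by rw [← adjoint_inner_right, a2]
      rw [inner_self_eq_norm_sq_to_K, inner_self_eq_norm_sq_to_K] at h1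
      have h2 : ‖V2 x‖ ^ 2 = ‖x‖ ^ 2 := by exact_mod_cast h1
      exact (sq_eq_sq₀ (norm_nonneg _) (norm_nonneg _)).1 h2
    rw [hu', sq, sq, sq, this, m1, m2]
  rw [e1, e3, n1 u huG, n2 u, ← e4, e5]

end two

section inst
variable {H : Type u} [NormedAddCommGroup H] [InnerProductSpace ℂ H] [CompleteSpace H]

/-- Two vector functionals of a commutative *-algebra add up to a vector functional. -/
lemma two (𝒟 : StarSubalgebra ℂ (H →L[ℂ] H)) (hc : ∀ a ∈ 𝒟, ∀ b ∈ 𝒟, Commute a b) (x1 x2 : H) :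
    ∃ y, ∀ d ∈ 𝒟, ‖d y‖ ^ 2 = ‖d x1‖ ^ 2 + ‖d x2‖ ^ 2 := by
  let e := WithLp.prodContinuousLinearEquiv 2 ℂ H H
  let V1 : H →L[ℂ] WithLp 2 (H × H) := (e.symm : (H × H) →L[ℂ] WithLp 2 (H × H)).comp
    (ContinuousLinearMap.inl ℂ H H)
  let V2 : H →L[ℂ] WithLp 2 (H × H) := (e.symm : (H × H) →L[ℂ] WithLp 2 (H × H)).comp
    (ContinuousLinearMap.inr ℂ H H)
  have h1 : ∀ z : WithLp 2 (H × H), adjoint V1 z = z.fst := by
    intro z
    refine ext_inner_right ℂ fun x => ?_
    rw [adjoint_inner_left, WithLp.prod_inner_apply]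
    have e1 : (V1 x).ofLp.1 = x := rfl
    have e2 : (V1 x).ofLp.2 = 0 := rfl
    rw [e1, e2, inner_zero_right, add_zero]
    rfl
  have h2 : ∀ z : WithLp 2 (H × H), adjoint V2 z = z.snd := by
    intro z
    refine ext_inner_right ℂ fun x => ?_
    rw [adjoint_inner_left, WithLp.prod_inner_apply]
    have e1 : (V2 x).ofLp.1 = 0 := rfl
    have e2 : (V2 x).ofLp.2 = x := rfl
    rw [e1, e2, inner_zero_right, zero_add]
    rfl
  refine two_aux 𝒟 hc V1 V2 (fun x => ?_) (fun x => ?_) (fun x => ?_) (fun x => ?_) (fun z => ?_)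
    x1 x2
  · rw [h1]; rfl
  · rw [h2]; rfl
  · rw [h1]; rfl
  · rw [h2]; rfl
  · rw [h1, h2]
    apply (WithLp.equiv 2 (H × H)).injective
    show (z.fst, (0 : H)) + ((0 : H), z.snd) = (z.fst, z.snd)
    simp

/-- Finitely many vector functionals of a commutative *-algebra add up to a vector functional. -/
lemma many (𝒟 : StarSubalgebra ℂ (H →L[ℂ] H)) (hc : ∀ a ∈ 𝒟, ∀ b ∈ 𝒟, Commute a b)
    (l : List H) : ∃ y, ∀ d ∈ 𝒟, ‖d y‖ ^ 2 = (l.map (fun x => ‖d x‖ ^ 2)).sum := by
  induction l with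
  | nil => exact ⟨0, fun d _ => by simp⟩
  | cons x l ih =>
    obtain ⟨y, hy⟩ := ih
    obtain ⟨z, hz⟩ := two 𝒟 hc x y
    exact ⟨z, fun d hd => by rw [hz d hd, hy d hd, List.map_cons, List.sum_cons]⟩

end inst

end Pool.Agent.Y852.RQ
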