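import Pool.Agent.Y852.RQ.B
import Pool.Agent.Y852.RQ.D
import Pool.Agent.Y852.RQ.E

/-!
# Weakly closed algebras generated by commuting operators
-/

set_option autoImplicit false
set_option linter.unusedSectionVars false
open scoped InnerProductSpace

namespace Pool.Agent.Y852.RQ

universe u v
open ContinuousLinearMap Polynomial


section wot
variable {H : Type u} [NormedAddCommGroup H] [InnerProductSpace ℂ H] [CompleteSpace H]

lemma wot_mem (t : H →L[ℂ] H) (A : Set (H →L[ℂ] H))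
    (h : ∀ (l : List H) (ε : ℝ), 0 < ε → ∃ a ∈ A, ∀ x ∈ l, ‖a x - t x‖ < ε) :
    ContinuousLinearMapWOT.ofCLM t ∈ closure (ContinuousLinearMapWOT.ofCLM '' A) := by
  rw [mem_closure_iff_nhds]
  intro U hU
  rw [ContinuousLinearMapWOT.withSeminorms.mem_nhds_iff] at hU
  obtain ⟨s, r, hr, hs⟩ := hU
  have hC : 0 < 1 + ∑ i ∈ s, ‖i.2‖ := by
    have : 0 ≤ ∑ i ∈ s, ‖i.2‖ := Finset.sum_nonneg fun i _ => norm_nonneg _
    linarith
  obtain ⟨a, ha, hal⟩ := h (s.toList.map Prod.fst) (r / (1 + ∑ i ∈ s, ‖i.2‖)) (by positivity)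
  refine ⟨ContinuousLinearMapWOT.ofCLM a, hs ?_, ⟨a, ha, rfl⟩⟩
  rw [Seminorm.mem_ball]
  apply Seminorm.finset_sup_apply_lt hr
  intro i hi
  show ‖i.2 ((ContinuousLinearMapWOT.ofCLM a - ContinuousLinearMapWOT.ofCLM t) i.1)‖ < r
  have e : (ContinuousLinearMapWOT.ofCLM a - ContinuousLinearMapWOT.ofCLM t) i.1 =
      a i.1 - t i.1 := rfl
  rw [e]
  have h1 := hal i.1 (List.mem_map.2 ⟨i, Finset.mem_toList.2 hi, rfl⟩)
  have h2 : ‖i.2‖ ≤ ∑ i ∈ s, ‖i.2‖ :=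
    Finset.single_le_sum (f := fun i : H × StrongDual ℂ H => ‖i.2‖) (fun i _ => norm_nonneg _) hi
  calc ‖i.2 (a i.1 - t i.1)‖ ≤ ‖i.2‖ * ‖a i.1 - t i.1‖ := i.2.le_opNorm _
    _ ≤ (∑ i ∈ s, ‖i.2‖) * ‖a i.1 - t i.1‖ := mul_le_mul_of_nonneg_right h2 (norm_nonneg _)
    _ ≤ (∑ i ∈ s, ‖i.2‖) * (r / (1 + ∑ i ∈ s, ‖i.2‖)) :=
        mul_le_mul_of_nonneg_left h1.le (Finset.sum_nonneg fun i _ => norm_nonneg _)
    _ < (1 + ∑ i ∈ s, ‖i.2‖) * (r / (1 + ∑ i ∈ s, ‖i.2‖)) := by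
        apply mul_lt_mul_of_pos_right _ (by positivity)
        linarith
    _ = r := mul_div_cancel₀ _ hC.ne'

lemma wot_inner_cont (x z : H) :
    Continuous fun T : (ContinuousLinearMapWOT (RingHom.id ℂ) H H) => ⟪z, T x⟫_ℂ :=
  ContinuousLinearMapWOT.continuous_dual_apply x (innerSL ℂ z)

/-- the adjoint is continuous for the weak operator topology -/
lemma adj_cont : Continuous fun T : (ContinuousLinearMapWOT (RingHom.id ℂ) H H) =>
    (ContinuousLinearMapWOT.ofCLM (adjoint T.toCLM) :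
      ContinuousLinearMapWOT (RingHom.id ℂ) H H) := by
  apply ContinuousLinearMapWOT.continuous_of_dual_apply_continuous
  intro x φ
  obtain ⟨z, rfl⟩ := (InnerProductSpace.toDual ℂ H).surjective φ
  have h1 : (fun T : (ContinuousLinearMapWOT (RingHom.id ℂ) H H) =>
      (InnerProductSpace.toDual ℂ H z) ((ContinuousLinearMapWOT.ofCLM (adjoint T.toCLM) :
        ContinuousLinearMapWOT (RingHom.id ℂ) H H) x)) =
      fun T => (starRingEnd ℂ) ⟪x, T z⟫_ℂ := by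
    funext T
    show ⟪z, adjoint T.toCLM x⟫_ℂ = (starRingEnd ℂ) ⟪x, T.toCLM z⟫_ℂ
    rw [adjoint_inner_right, inner_conj_symm]
  rw [h1]
  exact Complex.continuous_conj.comp (wot_inner_cont z x)

lemma subset_genAlg (𝒢 : Set (H →L[ℂ] H)) {S : H →L[ℂ] H} (hS : S ∈ Algebra.adjoin ℂ 𝒢) :
    S ∈ genAlg 𝒢 := subset_closure ⟨S, hS, rfl⟩

/-- Invariance passes to the generated weakly closed algebra. -/
lemma inv_genAlg (𝒢 : Set (H →L[ℂ] H)) (M : Submodule ℂ H) (hM : IsClosed (M : Set H))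
    (hA : ∀ A ∈ 𝒢, ∀ x ∈ M, A x ∈ M) : ∀ S ∈ genAlg 𝒢, ∀ x ∈ M, S x ∈ M := by
  have hadj : ∀ S ∈ Algebra.adjoin ℂ 𝒢, ∀ x ∈ M, S x ∈ M := by
    intro S hS
    induction hS using Algebra.adjoin_induction with
    | mem S hS => exact hA S hS
    | algebraMap c => intro x hx; exact M.smul_mem c hx
    | add S T _ _ h1 h2 => intro x hx; exact M.add_mem (h1 x hx) (h2 x hx)
    | mul S T _ _ h1 h2 => intro x hx; exact h1 _ (h2 x hx)
  intro S hS x hx
  have hcl : (Mᗮ)ᗮ = M := by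
    rw [Submodule.orthogonal_orthogonal_eq_closure]
    exact IsClosed.submodule_topologicalClosure_eq hM
  rw [← hcl, Submodule.mem_orthogonal]
  intro y hy
  have hclosed : IsClosed {T : (ContinuousLinearMapWOT (RingHom.id ℂ) H H) | ⟪y, T x⟫_ℂ = 0} :=
    isClosed_eq (wot_inner_cont x y) continuous_const
  have hsub : ContinuousLinearMapWOT.ofCLM '' (Algebra.adjoin ℂ 𝒢 : Set (H →L[ℂ] H)) ⊆
      {T : (ContinuousLinearMapWOT (RingHom.id ℂ) H H) | ⟪y, T x⟫_ℂ = 0} := by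
    rintro _ ⟨T, hT, rfl⟩
    exact (Submodule.mem_orthogonal' M y).1 hy _ (hadj T hT x hx)
  exact hclosed.closure_subset_iff.2 hsub hS

/-- Invariance under the adjoints passes to the adjoints of the generated algebra. -/
lemma inv_adj_adjoin (𝒢 : Set (H →L[ℂ] H)) (M : Submodule ℂ H)
    (hA : ∀ A ∈ 𝒢, ∀ x ∈ M, adjoint A x ∈ M) :
    ∀ S ∈ Algebra.adjoin ℂ 𝒢, ∀ x ∈ M, adjoint S x ∈ M := by
  intro S hS
  induction hS using Algebra.adjoin_induction with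
  | mem S hS => exact hA S hS
  | algebraMap c =>
    intro x hx
    have : adjoint (algebraMap ℂ (H →L[ℂ] H) c) = algebraMap ℂ (H →L[ℂ] H) (star c) :=
      (algebraMap_star_comm c).symm
    rw [this]
    exact M.smul_mem _ hx
  | add S T _ _ h1 h2 => intro x hx; rw [map_add]; exact M.add_mem (h1 x hx) (h2 x hx)
  | mul S T _ _ h1 h2 =>
    intro x hx
    have : adjoint (S * T) = adjoint T * adjoint S := adjoint_comp S T
    rw [this]
    exact h2 _ (h1 x hx)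

/-- Commutation passes to the generated weakly closed algebra. -/
lemma comm_genAlg (𝒢 : Set (H →L[ℂ] H)) (T : H →L[ℂ] H) (hT : ∀ A ∈ 𝒢, Commute A T) :
    ∀ S ∈ genAlg 𝒢, Commute S T := by
  have hadj : ∀ S ∈ Algebra.adjoin ℂ 𝒢, Commute S T := by
    intro S hS
    induction hS using Algebra.adjoin_induction with
    | mem S hS => exact hT S hS
    | algebraMap c => exact Algebra.commutes c T
    | add S T _ _ h1 h2 => exact h1.add_left h2
    | mul S T _ _ h1 h2 => exact h1.mul_left h2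
  intro S hS
  ext x
  refine ext_inner_left ℂ fun y => ?_
  show ⟪y, S (T x)⟫_ℂ = ⟪y, T (S x)⟫_ℂ
  have hcl : IsClosed {W : (ContinuousLinearMapWOT (RingHom.id ℂ) H H) |
      ⟪y, W (T x)⟫_ℂ = ⟪adjoint T y, W x⟫_ℂ} :=
    isClosed_eq (wot_inner_cont _ _) (wot_inner_cont _ _)
  have hsub : ContinuousLinearMapWOT.ofCLM '' (Algebra.adjoin ℂ 𝒢 : Set (H →L[ℂ] H)) ⊆
      {W : (ContinuousLinearMapWOT (RingHom.id ℂ) H H) |
        ⟪y, W (T x)⟫_ℂ = ⟪adjoint T y, W x⟫_ℂ} := by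
    rintro _ ⟨W, hW, rfl⟩
    show ⟪y, W (T x)⟫_ℂ = ⟪adjoint T y, W x⟫_ℂ
    rw [adjoint_inner_left, comm_apply (hadj W hW)]
  have := hcl.closure_subset_iff.2 hsub hS
  have e2 : ⟪y, T (S x)⟫_ℂ = ⟪adjoint T y, S x⟫_ℂ := (adjoint_inner_left T (S x) y).symm
  rw [e2]
  exact this

/-- A commuting family of normal operators generating a reductive algebra generates a self-adjoint
algebra. -/
theorem sarason (𝒢 : Set (H →L[ℂ] H)) (hn : ∀ A ∈ 𝒢, IsStarNormal A)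
    (hc : ∀ A ∈ 𝒢, ∀ B ∈ 𝒢, Commute A B)
    (hred : ∀ M : Submodule ℂ H, IsClosed (M : Set H) → (∀ A ∈ 𝒢, ∀ x ∈ M, A x ∈ M) →
      ∀ A ∈ 𝒢, ∀ x ∈ M, adjoint A x ∈ M) :
    ∀ S ∈ genAlg 𝒢, adjoint S ∈ genAlg 𝒢 := by
  set 𝒟 : StarSubalgebra ℂ (H →L[ℂ] H) := StarAlgebra.adjoin ℂ 𝒢 with h𝒟
  have hcomm : ∀ a ∈ 𝒟, ∀ b ∈ 𝒟, Commute a b := by
    intro a ha b hb
    have hi := StarAlgebra.isMulCommutative_adjoin ℂ (s := 𝒢)
      (fun a ha b hb => (hc a ha b hb).eq)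
      (fun a ha b hb => ((hn b hb).commute_star_right (hc a ha b hb)).eq)
    have := hi.is_comm.comm (⟨a, ha⟩ : StarAlgebra.adjoin ℂ 𝒢) ⟨b, hb⟩
    exact congrArg Subtype.val this
  have hle : ∀ S ∈ Algebra.adjoin ℂ 𝒢, S ∈ 𝒟 := by
    intro S hS
    have : Algebra.adjoin ℂ 𝒢 ≤ 𝒟.toSubalgebra := by
      rw [Algebra.adjoin_le_iff]
      exact StarAlgebra.subset_adjoin ℂ 𝒢
    exact this hS
  -- adjoints of polynomials
  have hpoly : ∀ S ∈ Algebra.adjoin ℂ 𝒢, adjoint S ∈ genAlg 𝒢 := by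
    intro S hS
    apply wot_mem
    intro l ε hε
    obtain ⟨y, hy⟩ := many 𝒟 hcomm l
    let M0 : Submodule ℂ H :=
      { carrier := {e | ∃ a ∈ Algebra.adjoin ℂ 𝒢, e = a y}
        add_mem' := by
          rintro _ _ ⟨a, ha, rfl⟩ ⟨b, hb, rfl⟩
          exact ⟨a + b, add_mem ha hb, rfl⟩
        zero_mem' := ⟨0, zero_mem _, rfl⟩
        smul_mem' := by
          rintro c _ ⟨a, ha, rfl⟩
          exact ⟨c • a, Subalgebra.smul_mem _ ha c, rfl⟩ }
    set M := M0.topologicalClosure with hM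
    have hMc : IsClosed (M : Set H) := Submodule.isClosed_topologicalClosure _
    have hMinv : ∀ A ∈ 𝒢, ∀ x ∈ M, A x ∈ M := by
      intro A hA x hx
      have : M ≤ M.comap (A : H →ₗ[ℂ] H) := by
        refine Submodule.topologicalClosure_minimal _ ?_ (hMc.preimage A.continuous)
        rintro _ ⟨a, ha, rfl⟩
        exact Submodule.le_topologicalClosure _ ⟨A * a, mul_mem (Algebra.subset_adjoin hA) ha, rfl⟩
      exact this hx
    have hyM : y ∈ M := Submodule.le_topologicalClosure _ ⟨1, one_mem _, rfl⟩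
    have hty : adjoint S y ∈ M := inv_adj_adjoin 𝒢 M (hred M hMc hMinv) S hS y hyM
    have hty' : adjoint S y ∈ closure (M0 : Set H) := hty
    obtain ⟨_, ⟨a, ha, rfl⟩, hdist⟩ := Metric.mem_closure_iff.1 hty' ε hε
    refine ⟨a, ha, fun x hx => ?_⟩
    have hmem : a - adjoint S ∈ 𝒟 := 𝒟.sub_mem (hle a ha) (𝒟.star_mem' (hle S hS))
    have h1 := hy _ hmem
    have h2 : ‖(a - adjoint S) x‖ ^ 2 ≤ (l.map (fun x => ‖(a - adjoint S) x‖ ^ 2)).sum := by
      apply List.single_le_sum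
      · intro z hz
        obtain ⟨w, -, rfl⟩ := List.mem_map.1 hz
        positivity
      · exact List.mem_map.2 ⟨x, hx, rfl⟩
    rw [← h1] at h2
    have h3 : ‖(a - adjoint S) x‖ ≤ ‖(a - adjoint S) y‖ :=
      (sq_le_sq₀ (norm_nonneg _) (norm_nonneg _)).1 h2
    have h4 : ‖(a - adjoint S) y‖ < ε := by
      rw [dist_comm, dist_eq_norm] at hdist
      exact hdist
    exact lt_of_le_of_lt h3 h4
  intro S hS
  set F : (ContinuousLinearMapWOT (RingHom.id ℂ) H H) →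
    (ContinuousLinearMapWOT (RingHom.id ℂ) H H) :=
    fun T => ContinuousLinearMapWOT.ofCLM (adjoint T.toCLM) with hF
  have h1 : F (ContinuousLinearMapWOT.ofCLM S) ∈ closure (F '' (ContinuousLinearMapWOT.ofCLM ''
      (Algebra.adjoin ℂ 𝒢 : Set (H →L[ℂ] H)))) :=
    image_closure_subset_closure_image adj_cont ⟨_, hS, rfl⟩
  have h2 : closure (F '' (ContinuousLinearMapWOT.ofCLM ''
      (Algebra.adjoin ℂ 𝒢 : Set (H →L[ℂ] H)))) ⊆ closure (ContinuousLinearMapWOT.ofCLM ''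
        (Algebra.adjoin ℂ 𝒢 : Set (H →L[ℂ] H))) := by
    refine closure_minimal ?_ isClosed_closure
    rintro _ ⟨_, ⟨T, hT, rfl⟩, rfl⟩
    exact hpoly T hT
  exact h2 h1

end wot

section final
variable {H : Type u} [NormedAddCommGroup H] [InnerProductSpace ℂ H] [CompleteSpace H]

/-- Operators weakly quasi-similar to finite type operators: normal iff all hyperinvariant subspaces
are reducing. -/
theorem hyper_iff (A : H →L[ℂ] H)
    (h : ∃ (K : Type v) (_ : NormedAddCommGroup K) (_ : InnerProductSpace ℂ K)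
      (_ : CompleteSpace K) (B : K →L[ℂ] K), FiniteType B ∧ WeakQS A B) :
    IsStarNormal A ↔ HyperReductive A := by
  refine ⟨hyper_of_normal A, fun hred => ?_⟩
  obtain ⟨K, _, _, _, B, ⟨N, Q, hN, hQ, hNQ, rfl⟩, X, Y, hX, hY, hXA, hAY⟩ := h
  exact normal_of_hyper A N Q hN hQ hNQ X Y hX hY hXA hAY hred

/-- Central members of reductive sets. -/
theorem central (𝔄 : Set (H →L[ℂ] H)) (hred : Reductive 𝔄) (T : H →L[ℂ] H) (hT : T ∈ 𝔄)
    (hc : ∀ S ∈ 𝔄, Commute S T) (p : ℂ[X]) (hp : 0 < p.natDegree)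
    (h : ∃ (K : Type v) (_ : NormedAddCommGroup K) (_ : InnerProductSpace ℂ K)
      (_ : CompleteSpace K) (B : K →L[ℂ] K), FiniteType B ∧ WeakQS (aeval T p) B) :
    IsStarNormal T := by
  have hctx : Ctx 𝔄 T := ⟨hT, hc, hred⟩
  apply root_normal hctx p hp
  rw [hyper_iff (aeval T p) h]
  intro M hM hinv
  have h1 : ∀ S ∈ 𝔄, ∀ x ∈ M, S x ∈ M := fun S hS => hinv S (comm_aeval (hc S hS) p)
  have h2 := hred M hM h1 T hT
  exact inv_adj_adjoin {T} M (fun A hA => by rw [Set.mem_singleton_iff.1 hA]; exact h2) _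
    (aeval_mem_adjoin_singleton ℂ T)

/-- Commuting families. -/
theorem family (𝒢 : Set (H →L[ℂ] H)) (hc : ∀ A ∈ 𝒢, ∀ B ∈ 𝒢, Commute A B)
    (h : ∀ T ∈ 𝒢, ∃ p : ℂ[X], 0 < p.natDegree ∧
      ∃ (K : Type v) (_ : NormedAddCommGroup K) (_ : InnerProductSpace ℂ K)
        (_ : CompleteSpace K) (B : K →L[ℂ] K), FiniteType B ∧ WeakQS (aeval T p) B) :
    Reductive (genAlg 𝒢) ↔ ∀ S ∈ genAlg 𝒢, adjoint S ∈ genAlg 𝒢 ∧ IsStarNormal S := by
  constructor
  · intro hred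
    have hcen : ∀ T ∈ 𝒢, ∀ S ∈ genAlg 𝒢, Commute S T := fun T hT =>
      comm_genAlg 𝒢 T (fun A hA => hc A hA T hT)
    have hcen2 : ∀ T ∈ genAlg 𝒢, ∀ S ∈ genAlg 𝒢, Commute S T := fun T hT =>
      comm_genAlg 𝒢 T (fun A hA => (hcen A hA T hT).symm)
    have hn : ∀ T ∈ 𝒢, IsStarNormal T := by
      intro T hT
      obtain ⟨p, hp, hK⟩ := h T hT
      exact central (genAlg 𝒢) hred T (subset_genAlg 𝒢 (Algebra.subset_adjoin hT)) (hcen T hT)
        p hp hK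
    have hs := sarason 𝒢 hn hc (fun M hM hinv A hA =>
      hred M hM (inv_genAlg 𝒢 M hM hinv) A (subset_genAlg 𝒢 (Algebra.subset_adjoin hA)))
    intro S hS
    exact ⟨hs S hS, ⟨hcen2 S hS _ (hs S hS)⟩⟩
  · intro hs M _ hinv S hS
    exact hinv _ (hs S hS).1

end final

end Pool.Agent.Y852.RQ
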