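import Mathlib

/-!
# Commutation lemmas for normal elements plus commuting nilpotents in a C*-algebra
-/

set_option autoImplicit false

namespace Pool.Agent.Y852.RQ

universe u v

section alg
variable {𝔸 : Type v} [CStarAlgebra 𝔸]

open NormedSpace in
lemma exp_comm (a C : 𝔸) (h : Commute (a * C - C * a) a) (s : ℂ) :
    exp ((-s) • a) * (C + s • (a * C - C * a)) * exp (s • a) = C := by
  let g : ℂ → 𝔸 := fun s => exp ((-s) • a) * (C + s • (a * C - C * a)) * exp (s • a)
  have hg : ∀ s, HasDerivAt g 0 s := by
    intro s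
    obtain ⟨c, hc⟩ : ∃ c, c = a * C - C * a := ⟨_, rfl⟩
    rw [← hc] at h
    have h1 : HasDerivAt (fun u : ℂ => exp (u • a)) (a * exp (s • a)) s :=
      hasDerivAt_exp_smul_const' a s
    have h2 : HasDerivAt (fun u : ℂ => exp ((-u) • a)) ((-1 : ℂ) • (exp ((-s) • a) * a)) s := by
      have := (hasDerivAt_exp_smul_const (𝕂 := ℂ) a (-s)).scomp s (hasDerivAt_neg s)
      exact this
    have h3 : HasDerivAt (fun u : ℂ => C + u • c) c s := by
      simpa using ((hasDerivAt_id s).smul_const c).const_add C
    have h4 := (h2.mul h3).mul h1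
    have key : -(a * (C + s • c)) + c + (C + s • c) * a = 0 := by
      rw [mul_add, add_mul, mul_smul_comm, smul_mul_assoc, ← h.eq]
      nth_rw 2 [hc]
      abel
    have hgg : g = (((fun u : ℂ => exp (-u • a)) * fun u : ℂ => C + u • c) *
        fun u : ℂ => exp (u • a)) := by
      funext u
      simp only [g, ← hc]
      rfl
    rw [hgg]
    refine h4.congr_deriv ?_
    have e : ∀ E F G : 𝔸, ((-1 : ℂ) • (E * a) * G + E * c) * F + E * G * (a * F) =
        E * (-(a * G) + c + G * a) * F := by
      intro E F G
      simp only [neg_smul, one_smul]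
      noncomm_ring
    have e2 := e (exp ((-s) • a)) (exp (s • a)) (C + s • c)
    rw [key, mul_zero, zero_mul] at e2
    exact e2
  have h5 : g s = g 0 := by
    have hd : Differentiable ℂ g := fun s => (hg s).differentiableAt
    exact is_const_of_deriv_eq_zero hd (fun s => (hg s).deriv) s 0
  have h6 : g 0 = C := by simp [g]
  exact h5.trans h6

open NormedSpace in
lemma norm_shift (L C P : 𝔸) (hL : IsSelfAdjoint L) (hP : L * C - C * L = P) (h : Commute P L)
    (t : ℝ) : ‖C + (t : ℂ) • (Complex.I • P)‖ = ‖C‖ := by
  have e : (Complex.I • L) * C - C * (Complex.I • L) = Complex.I • P := by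
    rw [smul_mul_assoc, mul_smul_comm, ← smul_sub, hP]
  have h1 : Commute ((Complex.I • L) * C - C * (Complex.I • L)) (Complex.I • L) := by
    rw [e]
    exact (h.smul_left _).smul_right _
  have h2 := exp_comm (Complex.I • L) C h1 (t : ℂ)
  rw [e] at h2
  have hu : ∀ r : ℝ, ∃ U : unitary 𝔸, exp ((r : ℂ) • (Complex.I • L)) = U := by
    intro r
    have hs : IsSelfAdjoint ((r : ℂ) • L) := by
      rw [Complex.coe_smul]
      exact (IsSelfAdjoint.all r).smul hL
    refine ⟨selfAdjoint.expUnitary ⟨(r : ℂ) • L, hs⟩, ?_⟩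
    rw [selfAdjoint.expUnitary_coe]
    congr 1
    rw [smul_comm]
  obtain ⟨U, hU⟩ := hu t
  obtain ⟨V, hV⟩ := hu (-t)
  have hV' : exp ((-(t : ℂ)) • (Complex.I • L)) = V := by
    rw [← hV]; congr 2; push_cast; ring
  rw [hU, hV'] at h2
  conv_rhs => rw [← h2]
  rw [CStarRing.norm_mul_coe_unitary, CStarRing.norm_coe_unitary_mul]

/-- If the commutator of a self-adjoint element with another element commutes with it,
it vanishes. -/
lemma sa_comm (L C : 𝔸) (hL : IsSelfAdjoint L) (h : Commute (L * C - C * L) L) :
    Commute L C := by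
  generalize hP : L * C - C * L = P at h
  have h1 : ∀ t : ℝ, 0 ≤ t → t * ‖P‖ ≤ 2 * ‖C‖ := by
    intro t ht
    have h2 : ‖(t : ℂ) • (Complex.I • P)‖ ≤ ‖C + (t : ℂ) • (Complex.I • P)‖ + ‖C‖ := by
      have := norm_sub_le (C + (t : ℂ) • (Complex.I • P)) C
      simpa using this
    rw [norm_shift L C P hL hP h t, norm_smul, norm_smul, Complex.norm_I, one_mul,
      Complex.norm_real, Real.norm_of_nonneg ht] at h2
    linarith
  have h2 : ‖P‖ = 0 := by
    by_contra hne
    have hpos : 0 < ‖P‖ := lt_of_le_of_ne (norm_nonneg _) (Ne.symm hne)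
    have := h1 ((2 * ‖C‖ + 1) / ‖P‖) (by positivity)
    rw [div_mul_cancel₀ _ hne] at this
    linarith
  have h3 : L * C - C * L = 0 := by rw [hP]; exact norm_eq_zero.1 h2
  exact sub_eq_zero.1 h3

/-- For normal `N`: if `[N, C]` commutes with `N` then `[N, C] = 0`. -/
lemma normal_comm (N C : 𝔸) (hN : IsStarNormal N) (h : Commute (N * C - C * N) N) :
    Commute N C := by
  set D := N * C - C * N with hD
  set D' := star N * C - C * star N with hD'
  have h1 : Commute D (star N) := hN.commute_star_right h
  have h2 : Commute D' N := by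
    have e : D' * N - N * D' = D * star N - star N * D := by
      rw [hD, hD']
      have e1 : star N * N = N * star N := hN.star_comm_self.eq
      calc (star N * C - C * star N) * N - N * (star N * C - C * star N)
          = star N * C * N - C * (star N * N) - N * star N * C + N * C * star N := by noncomm_ring
        _ = star N * C * N - C * (N * star N) - star N * N * C + N * C * star N := by rw [e1]
        _ = _ := by noncomm_ring
    have h3 : D * star N - star N * D = 0 := sub_eq_zero.2 h1.eq
    exact sub_eq_zero.1 (e.trans h3)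
  have h3 : Commute D' (star N) := hN.commute_star_right h2
  have hL1 : IsSelfAdjoint (N + star N) := IsSelfAdjoint.add_star_self N
  have hL2 : IsSelfAdjoint (Complex.I • (N - star N)) := by
    rw [isSelfAdjoint_iff, star_smul, star_sub, star_star, Complex.star_def, Complex.conj_I,
      neg_smul, ← smul_neg, neg_sub]
  have c1 := sa_comm (N + star N) C hL1 (by
    have e : (N + star N) * C - C * (N + star N) = D + D' := by rw [hD, hD']; noncomm_ring
    rw [e]
    exact (h.add_left h2).add_right (h1.add_left h3))
  have c2 := sa_comm (Complex.I • (N - star N)) C hL2 (by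
    have e : (Complex.I • (N - star N)) * C - C * (Complex.I • (N - star N)) =
        Complex.I • (D - D') := by
      rw [smul_mul_assoc, mul_smul_comm, ← smul_sub, hD, hD']; congr 1; noncomm_ring
    rw [e]
    refine (Commute.smul_left ?_ _).smul_right _
    exact (h.sub_left h2).sub_right (h1.sub_left h3))
  have c3 : Commute (N - star N) C := by
    have := c2.smul_left (-Complex.I)
    rwa [smul_smul, neg_mul, Complex.I_mul_I, neg_neg, one_smul] at this
  have e : N = (1 / 2 : ℂ) • ((N + star N) + (N - star N)) := by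
    rw [add_add_sub_cancel, ← two_smul ℂ N, smul_smul]; norm_num
  rw [e]
  exact (c1.add_left c3).smul_left _

/-- The normal part of a finite type element commutes with everything commuting with the element. -/
lemma comm_of_finite (N Q : 𝔸) (hN : IsStarNormal N) (hQ : IsNilpotent Q)
    (hNQ : Commute N Q) (C : 𝔸) (hC : Commute C (N + Q)) : Commute C N := by
  let E := Module.End ℂ 𝔸
  let dN : E := LinearMap.mulLeft ℂ N - LinearMap.mulRight ℂ N
  let dQ : E := LinearMap.mulLeft ℂ Q - LinearMap.mulRight ℂ Q
  have hdN : ∀ X, dN X = N * X - X * N := fun X => rfl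
  have hdQ : ∀ X, dQ X = Q * X - X * Q := fun X => rfl
  have hcomm : Commute dN dQ := by
    apply LinearMap.ext
    intro X
    show dN (dQ X) = dQ (dN X)
    rw [hdN, hdQ, hdQ, hdN]
    have e := hNQ.eq
    calc N * (Q * X - X * Q) - (Q * X - X * Q) * N
        = (N * Q) * X - N * X * Q - Q * X * N + X * (Q * N) := by noncomm_ring
      _ = (Q * N) * X - N * X * Q - Q * X * N + X * (N * Q) := by rw [e]
      _ = _ := by noncomm_ring
  have hnil : IsNilpotent dQ := by
    have h1 : IsNilpotent (LinearMap.mulLeft ℂ Q : E) := by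
      obtain ⟨n, hn⟩ := hQ
      exact ⟨n, by rw [LinearMap.pow_mulLeft, hn]; ext X; simp⟩
    have h2 : IsNilpotent (LinearMap.mulRight ℂ Q : E) := by
      obtain ⟨n, hn⟩ := hQ
      exact ⟨n, by rw [LinearMap.pow_mulRight, hn]; ext X; simp⟩
    refine Commute.isNilpotent_sub ?_ h1 h2
    apply LinearMap.ext
    intro X
    show Q * (X * Q) = (Q * X) * Q
    rw [mul_assoc]
  have h0 : dN C = - dQ C := by
    rw [hdN, hdQ]
    have e : C * (N + Q) = (N + Q) * C := hC.eq
    have : N * C + Q * C = C * N + C * Q := by rw [← add_mul, ← mul_add, e]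
    rw [neg_sub, sub_eq_sub_iff_add_eq_add, this, add_comm]
  have h1 : ∀ k : ℕ, (dN ^ k) C = ((-1 : ℂ) ^ k) • (dQ ^ k) C := by
    intro k
    induction k with
    | zero => simp
    | succ k ih =>
      rw [pow_succ', pow_succ' dQ]
      show dN ((dN ^ k) C) = _ • dQ ((dQ ^ k) C)
      rw [ih, map_smul]
      have e : dN ((dQ ^ k) C) = (dQ ^ k) (dN C) := by
        have := (hcomm.pow_right k).eq
        exact congrArg (fun T : E => T C) this
      have e2 : (dQ ^ k) (dQ C) = dQ ((dQ ^ k) C) := by
        have := (Commute.refl dQ).pow_left k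
        exact congrArg (fun T : E => T C) this.eq
      rw [e, h0, map_neg, e2, pow_succ]
      simp
  obtain ⟨m, hm⟩ := hnil
  have h2 : ∀ k : ℕ, (dN ^ (k + 1)) C = 0 → dN C = 0 := by
    intro k
    induction k with
    | zero => intro h; simpa using h
    | succ k ih =>
      intro h
      apply ih
      have h3 : Commute (N * ((dN ^ k) C) - ((dN ^ k) C) * N) N := by
        have e : (dN ^ (k + 1 + 1)) C = dN (dN ((dN ^ k) C)) := by
          rw [pow_succ', pow_succ']; rfl
        rw [e, hdN (dN _)] at h
        have := (sub_eq_zero.1 h).symm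
        exact this
      have h4 := (normal_comm N _ hN h3).eq
      rw [pow_succ']
      show dN ((dN ^ k) C) = 0
      rw [hdN, h4, sub_self]
  have h3 : dN C = 0 := by
    apply h2 m
    have e : dQ ^ (m + 1) = 0 := by rw [pow_succ, hm, zero_mul]
    rw [h1, e]
    exact smul_zero _
  exact (sub_eq_zero.1 h3).symm

end alg

end Pool.Agent.Y852.RQ
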