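import Mathlib

/-!
# Definitions: reductive sets of operators, generated algebras, weak quasi-similarity
-/

set_option autoImplicit false

namespace Pool.Agent.Y852.RQ

universe u v
variable {H : Type u} [NormedAddCommGroup H] [InnerProductSpace ℂ H] [CompleteSpace H]
variable {K : Type v} [NormedAddCommGroup K] [InnerProductSpace ℂ K] [CompleteSpace K]

/-- A set of operators is reductive if every closed subspace invariant under all of its members is
also invariant under all their adjoints. -/
def Reductive (𝔄 : Set (H →L[ℂ] H)) : Prop :=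
  ∀ M : Submodule ℂ H, IsClosed (M : Set H) → (∀ S ∈ 𝔄, ∀ x ∈ M, S x ∈ M) →
    ∀ S ∈ 𝔄, ∀ x ∈ M, ContinuousLinearMap.adjoint S x ∈ M

/-- Every closed subspace which is invariant under all operators commuting with `A`
(a hyperinvariant subspace of `A`) reduces `A`. -/
def HyperReductive (A : H →L[ℂ] H) : Prop :=
  ∀ M : Submodule ℂ H, IsClosed (M : Set H) →
    (∀ S : H →L[ℂ] H, Commute S A → ∀ x ∈ M, S x ∈ M) →
      ∀ x ∈ M, ContinuousLinearMap.adjoint A x ∈ M

/-- The algebra generated by a set of operators: the closure in the weak operator topology of the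
algebra (with the identity) of polynomials in members of the set. -/
def genAlg (𝒢 : Set (H →L[ℂ] H)) : Set (H →L[ℂ] H) :=
  {S | ContinuousLinearMapWOT.ofCLM S ∈ closure (ContinuousLinearMapWOT.ofCLM ''
    (Algebra.adjoin ℂ 𝒢 : Set (H →L[ℂ] H)))}

/-- Spectral operators of finite type (in normal position): `N + Q` with `N` normal, `Q` nilpotent
and `N Q = Q N`. -/
def FiniteType (B : K →L[ℂ] K) : Prop :=
  ∃ N Q : K →L[ℂ] K, IsStarNormal N ∧ IsNilpotent Q ∧ Commute N Q ∧ B = N + Q

/-- A weak form of quasi-similarity: `X A = B X` for some injective `X` and `A Y = Y B` for some `Y`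
with dense range. -/
def WeakQS (A : H →L[ℂ] H) (B : K →L[ℂ] K) : Prop :=
  ∃ (X : H →L[ℂ] K) (Y : K →L[ℂ] H), Function.Injective X ∧ DenseRange Y ∧
    X.comp A = B.comp X ∧ A.comp Y = Y.comp B

end Pool.Agent.Y852.RQ
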