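import Pool.Agent.Y852.RQ.A
import Pool.Agent.Y852.RQ.Defs
import Pool.Agent.Results.MP_65e938_an.ReductiveQuasiSimilar

/-!
# Hyperinvariant subspaces of operators quasi-similar to finite type operators
-/

set_option autoImplicit false
open scoped InnerProductSpace

namespace Pool.Agent.Y852.RQ

universe u v
open Pool.Agent.Results.MP_65e938_an.ReductiveQuasiSimilar (InBicomm commute_of_projections)


section main

variable {H : Type u} [NormedAddCommGroup H] [InnerProductSpace ℂ H] [CompleteSpace H]
variable {K : Type v} [NormedAddCommGroup K] [InnerProductSpace ℂ K] [CompleteSpace K]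

open ContinuousLinearMap in
/-- The key relation `X R = E X`. -/
lemma exists_R' (A : H →L[ℂ] H) (B : K →L[ℂ] K) (X : H →L[ℂ] K) (Y : K →L[ℂ] H)
    (hX : Function.Injective X) (hY : DenseRange Y)
    (hXA : X.comp A = B.comp X) (hAY : A.comp Y = Y.comp B)
    (hred : HyperReductive A)
    (E : K →L[ℂ] K) (hE : IsStarProjection E) (hEb : InBicomm B E) :
    ∃ R : H →L[ℂ] H, IsSelfAdjoint R ∧ X.comp R = E.comp X := by
  -- the subspaces `M(F)`
  let M : (K →L[ℂ] K) → Submodule ℂ H := fun F =>
    (Submodule.span ℂ {x : H | ∃ (S : H →L[ℂ] H) (k : K), Commute S A ∧ x = S (Y (F k))}).topologicalClosure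
  have hMcl : ∀ F, IsClosed (M F : Set H) := fun F => Submodule.isClosed_topologicalClosure _
  have hMmem : ∀ F (S : H →L[ℂ] H) (k : K), Commute S A → S (Y (F k)) ∈ M F := fun F S k hS =>
    Submodule.le_topologicalClosure _ (Submodule.subset_span ⟨S, k, hS, rfl⟩)
  -- minimality
  have hMmin : ∀ F (W : Submodule ℂ H), IsClosed (W : Set H) →
      (∀ (S : H →L[ℂ] H) (k : K), Commute S A → S (Y (F k)) ∈ W) → M F ≤ W := by
    intro F W hW h
    refine Submodule.topologicalClosure_minimal _ (Submodule.span_le.2 ?_) hW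
    rintro _ ⟨S, k, hS, rfl⟩
    exact h S k hS
  -- hyperinvariance
  have hMinv : ∀ F (T : H →L[ℂ] H), Commute T A → ∀ x ∈ M F, T x ∈ M F := by
    intro F T hT x hx
    have : M F ≤ (M F).comap (T : H →ₗ[ℂ] H) := by
      refine hMmin F _ ((hMcl F).preimage T.continuous) ?_
      intro S k hS
      exact hMmem F (T * S) k (hT.mul_left hS)
    exact this hx
  -- `X S Y` commutes with `N`
  have hXSY : ∀ S : H →L[ℂ] H, Commute S A → Commute (X.comp (S.comp Y)) B := by
    intro S hS
    ext k
    show X (S (Y (B k))) = B (X (S (Y k)))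
    have e1 : Y (B k) = A (Y k) := (congrArg (fun T : K →L[ℂ] H => T k) hAY).symm
    have e2 : S (A (Y k)) = A (S (Y k)) := congrArg (fun T : H →L[ℂ] H => T (Y k)) hS.eq
    have e3 : X (A (S (Y k))) = B (X (S (Y k))) :=
      congrArg (fun T : H →L[ℂ] K => T (S (Y k))) hXA
    rw [e1, e2, e3]
  -- `X` maps `M E` into the range of `E` and `M (1 - E)` into the kernel
  have hXE : ∀ x ∈ M E, E (X x) = X x := by
    intro x hx
    have hle : M E ≤ LinearMap.ker ((E.comp X - X : H →L[ℂ] K) : H →ₗ[ℂ] K) := by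
      refine hMmin E _ (ContinuousLinearMap.isClosed_ker _) ?_
      intro S k hS
      have e := congrArg (fun T : K →L[ℂ] K => T (E k)) (hEb _ (hXSY S hS)).eq
      have e' : X (S (Y (E (E k)))) = E (X (S (Y (E k)))) := e
      have e'' : E (E k) = E k := congrArg (fun T : K →L[ℂ] K => T k) hE.isIdempotentElem
      rw [LinearMap.mem_ker]
      show E (X (S (Y (E k)))) - X (S (Y (E k))) = 0
      rw [← e', e'', sub_self]
    have := hle hx
    rw [LinearMap.mem_ker] at this
    exact sub_eq_zero.1 this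
  have hXE' : ∀ x ∈ M (1 - E), E (X x) = 0 := by
    intro x hx
    have hle : M (1 - E) ≤ LinearMap.ker ((E.comp X : H →L[ℂ] K) : H →ₗ[ℂ] K) := by
      refine hMmin _ _ (ContinuousLinearMap.isClosed_ker _) ?_
      intro S k hS
      have e := congrArg (fun T : K →L[ℂ] K => T ((1 - E) k)) (hEb _ (hXSY S hS)).eq
      have e' : X (S (Y (E ((1 - E) k)))) = E (X (S (Y ((1 - E) k)))) := e
      have e'' : E ((1 - E) k) = 0 := by
        have : E * (1 - E) = 0 := by rw [mul_sub, mul_one, hE.isIdempotentElem.eq, sub_self]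
        exact congrArg (fun T : K →L[ℂ] K => T k) this
      rw [LinearMap.mem_ker]
      show E (X (S (Y ((1 - E) k)))) = 0
      rw [← e', e'', map_zero, map_zero, map_zero]
    have := hle hx
    rwa [LinearMap.mem_ker] at this
  have : CompleteSpace (M E) := (hMcl E).completeSpace_coe
  set R : H →L[ℂ] H := (M E).starProjection with hR
  have hRsa : IsSelfAdjoint R := (isStarProjection_starProjection (U := M E)).isSelfAdjoint
  -- `R` commutes with `A`
  have hRA : Commute R A := by
    have hAinv : ∀ x ∈ M E, A x ∈ M E := hMinv E A (Commute.refl A)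
    have hA'inv : ∀ x ∈ M E, adjoint A x ∈ M E := hred _ (hMcl E) (hMinv E)
    ext x
    show R (A x) = A (R x)
    have h3 : x - R x ∈ (M E)ᗮ := Submodule.sub_starProjection_mem_orthogonal (K := M E) x
    have h4 : A (x - R x) ∈ (M E)ᗮ := by
      rw [Submodule.mem_orthogonal]
      intro u hu
      rw [← adjoint_inner_left]
      exact (Submodule.mem_orthogonal (M E) _).1 h3 _ (hA'inv u hu)
    have h5 : A (R x) ∈ M E := hAinv _ (Submodule.starProjection_apply_mem _ _)
    have h6 : A x = A (R x) + A (x - R x) := by rw [← map_add]; congr 1; abel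
    rw [h6, map_add, hR, Submodule.starProjection_eq_self_iff.2 h5,
      (Submodule.starProjection_apply_eq_zero_iff (K := M E)).2 h4, add_zero]
  -- `R` kills `M (1 - E)`
  have hR0 : ∀ x ∈ M (1 - E), R x = 0 := by
    intro x hx
    have h1 : R x ∈ M E := Submodule.starProjection_apply_mem _ _
    have h2 : R x ∈ M (1 - E) := hMinv _ R hRA x hx
    have h3 := hXE _ h1
    rw [hXE' _ h2] at h3
    exact hX (by rw [← h3, map_zero])
  refine ⟨R, hRsa, ?_⟩
  -- both sides agree on the range of `Y`
  have hagree : ∀ x ∈ Set.range Y, (X.comp R) x = (E.comp X) x := by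
    rintro _ ⟨k, rfl⟩
    have hk : k = E k + (1 - E) k := by
      show k = E k + (k - E k)
      abel
    have m1 : Y (E k) ∈ M E := by simpa using hMmem E 1 k (Commute.one_left A)
    have m2 : Y ((1 - E) k) ∈ M (1 - E) := by simpa using hMmem (1 - E) 1 k (Commute.one_left A)
    have hYk : Y k = Y (E k) + Y ((1 - E) k) := by rw [← map_add, ← hk]
    show X (R (Y k)) = E (X (Y k))
    rw [hYk, map_add, map_add, map_add, map_add, hR0 _ m2, map_zero, hXE _ m1, hXE' _ m2, hR,
      Submodule.starProjection_eq_self_iff.2 m1]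
  have hclosed : IsClosed {x | (X.comp R) x = (E.comp X) x} :=
    isClosed_eq (X.comp R).continuous (E.comp X).continuous
  ext x
  exact hclosed.closure_subset_iff.2 (fun y hy => hagree y hy) (hY x)

open ContinuousLinearMap in
/-- `X X*` commutes with the normal part. -/
lemma comm_XX (A : H →L[ℂ] H) (N Q : K →L[ℂ] K) (hN : IsStarNormal N) (hQ : IsNilpotent Q)
    (hNQ : Commute N Q) (X : H →L[ℂ] K) (Y : K →L[ℂ] H)
    (hX : Function.Injective X) (hY : DenseRange Y)
    (hXA : X.comp A = (N + Q).comp X) (hAY : A.comp Y = Y.comp (N + Q))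
    (hred : HyperReductive A) : Commute (X.comp (adjoint X)) N := by
  set D : K →L[ℂ] K := X.comp (adjoint X) with hD
  -- `D` commutes with the projections in the bicommutant of `N`
  have hDE : ∀ E : K →L[ℂ] K, IsStarProjection E → InBicomm (N + Q) E → Commute D E := by
    intro E hE hEb
    obtain ⟨R, hRsa, hXR⟩ := exists_R' A (N + Q) X Y hX hY hXA hAY hred E hE hEb
    have h1 : R.comp (adjoint X) = (adjoint X).comp E := by
      have := congrArg adjoint hXR
      rw [adjoint_comp, adjoint_comp] at this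
      have e1 : adjoint R = R := hRsa
      have e2 : adjoint E = E := hE.isSelfAdjoint
      rwa [e1, e2] at this
    show (X.comp (adjoint X)).comp E = E.comp (X.comp (adjoint X))
    rw [ContinuousLinearMap.comp_assoc, ← h1, ← ContinuousLinearMap.comp_assoc, hXR,
      ContinuousLinearMap.comp_assoc]
  -- `D` commutes with the self-adjoint elements of the bicommutant
  have hDL : ∀ L : K →L[ℂ] K, IsSelfAdjoint L → InBicomm (N + Q) L → Commute D L := by
    intro L hL hLb
    set c : ℝ := ‖L‖ + 1 with hc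
    have hc0 : 0 < c := by positivity
    set L₁ : K →L[ℂ] K := (1 / (2 * c)) • (L + algebraMap ℝ _ c) with hL₁
    have hLle : L ≤ algebraMap ℝ _ ‖L‖ := hL.le_algebraMap_norm_self
    have hLge : - algebraMap ℝ _ ‖L‖ ≤ L := hL.neg_algebraMap_norm_le_self
    have hmono : algebraMap ℝ (K →L[ℂ] K) ‖L‖ ≤ algebraMap ℝ _ c :=
      algebraMap_mono _ (by rw [hc]; linarith)
    have h0 : 0 ≤ L₁ := by
      refine smul_nonneg (by positivity) ?_
      have : - algebraMap ℝ _ c ≤ L := (neg_le_neg hmono).trans hLge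
      rwa [neg_le_iff_add_nonneg] at this
    have h1 : L₁ ≤ 1 := by
      have h2 : L + algebraMap ℝ _ c ≤ algebraMap ℝ _ (2 * c) := by
        have e : algebraMap ℝ (K →L[ℂ] K) (2 * c) = algebraMap ℝ _ c + algebraMap ℝ _ c := by
          rw [two_mul, map_add]
        rw [e]
        exact add_le_add (hLle.trans hmono) le_rfl
      have h3 := smul_le_smul_of_nonneg_left h2 (by positivity : 0 ≤ 1 / (2 * c))
      have h4 : (1 / (2 * c)) • algebraMap ℝ (K →L[ℂ] K) (2 * c) = 1 := by
        rw [Algebra.algebraMap_eq_smul_one, smul_smul, one_div, inv_mul_cancel₀ (by positivity),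
          one_smul]
      rwa [h4] at h3
    have hb : ∀ C : K →L[ℂ] K, Commute C L → Commute C L₁ := fun C hC =>
      (hC.add_right (Algebra.commute_algebraMap_right c C)).smul_right _
    have h5 : Commute D L₁ := commute_of_projections L₁ D h0 h1 (fun E hE hEb =>
      hDE E hE (fun C hC => hEb C (hb C (hLb C hC))))
    have h6 : L = (2 * c) • L₁ - algebraMap ℝ _ c := by
      rw [hL₁, smul_smul, mul_one_div_cancel (by positivity), one_smul, add_sub_cancel_right]
    rw [h6]
    exact (h5.smul_right _).sub_right (Algebra.commute_algebraMap_right c D)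
  have hbN : InBicomm (N + Q) N := fun C hC => comm_of_finite N Q hN hQ hNQ C hC
  have hstar : ∀ C : K →L[ℂ] K, Commute C N → Commute C (star N) := fun C hC =>
    hN.commute_star_right hC
  have e : N = (realPart N : K →L[ℂ] K) + Complex.I • (imaginaryPart N : K →L[ℂ] K) :=
    (realPart_add_I_smul_imaginaryPart N).symm
  have hre : ∀ C : K →L[ℂ] K, Commute C N → Commute C (realPart N : K →L[ℂ] K) := by
    intro C hC
    rw [realPart_apply_coe]
    exact (hC.add_right (hstar C hC)).smul_right _
  have him : ∀ C : K →L[ℂ] K, Commute C N → Commute C (imaginaryPart N : K →L[ℂ] K) := by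
    intro C hC
    rw [imaginaryPart_apply_coe]
    exact ((hC.sub_right (hstar C hC)).smul_right _).smul_right _
  rw [e]
  exact (hDL _ (realPart N).2 (fun C hC => hre C (hbN C hC))).add_right
    ((hDL _ (imaginaryPart N).2 (fun C hC => him C (hbN C hC))).smul_right _)

open ContinuousLinearMap in
/-- Transfer of a normal operator along `X` when `X X*` commutes with it. -/
lemma transfer (N : K →L[ℂ] K) (hN : IsStarNormal N) (X : H →L[ℂ] K)
    (hX : Function.Injective X) (hD : Commute (X.comp (adjoint X)) N) :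
    ∃ N' : H →L[ℂ] H, IsStarNormal N' ∧ X.comp N' = N.comp X := by
  set D : K →L[ℂ] K := X.comp (adjoint X) with hDd
  have hD0 : 0 ≤ D := by
    rw [nonneg_iff_isPositive]
    exact isPositive_self_comp_adjoint X
  set R : K →L[ℂ] K := CFC.sqrt D with hR
  have hRR : R * R = D := CFC.sqrt_mul_sqrt_self D hD0
  have hRN : Commute R N := Commute.cfcₙ_nnreal hD _
  have hRsa : adjoint R = R := (IsSelfAdjoint.of_nonneg (CFC.sqrt_nonneg D) : IsSelfAdjoint R)
  have hnorm : ∀ k, ‖adjoint X k‖ = ‖R k‖ := by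
    intro k
    have h1 : ‖adjoint X k‖ ^ 2 = ‖R k‖ ^ 2 := by
      have e1 : ⟪adjoint X k, adjoint X k⟫_ℂ = ⟪R k, R k⟫_ℂ := by
        rw [adjoint_inner_left]
        have : ⟪R k, R k⟫_ℂ = ⟪k, R (R k)⟫_ℂ := by
          conv_lhs => rw [← hRsa]
          rw [adjoint_inner_left, hRsa]
        rw [this]
        have e2 : R (R k) = X (adjoint X k) := congrArg (fun T : K →L[ℂ] K => T k) hRR
        rw [e2]
      rw [inner_self_eq_norm_sq_to_K, inner_self_eq_norm_sq_to_K] at e1
      exact_mod_cast e1
    exact (sq_eq_sq₀ (norm_nonneg _) (norm_nonneg _)).1 h1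
  have hdense : DenseRange ((adjoint X : K →L[ℂ] H) : K →ₗ[ℂ] H) := by
    have h1 : (LinearMap.range ((adjoint X : K →L[ℂ] H) : K →ₗ[ℂ] H)).topologicalClosure = ⊤ := by
      rw [Submodule.topologicalClosure_eq_top_iff]
      have := (adjoint X).orthogonal_range
      rw [adjoint_adjoint] at this
      rw [this]
      exact LinearMap.ker_eq_bot.2 hX
    exact (Submodule.dense_iff_topologicalClosure_eq_top).2 h1
  have hbound : ∀ k, ‖(((adjoint X).comp N : K →L[ℂ] H) : K →ₗ[ℂ] H) k‖ ≤
      ‖N‖ * ‖((adjoint X : K →L[ℂ] H) : K →ₗ[ℂ] H) k‖ := by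
    intro k
    show ‖adjoint X (N k)‖ ≤ ‖N‖ * ‖adjoint X k‖
    rw [hnorm, hnorm]
    have e : R (N k) = N (R k) := congrArg (fun T : K →L[ℂ] K => T k) hRN.eq
    rw [e]
    exact N.le_opNorm _
  set N' : H →L[ℂ] H := LinearMap.extendOfNorm (((adjoint X).comp N : K →L[ℂ] H) : K →ₗ[ℂ] H)
    ((adjoint X : K →L[ℂ] H) : K →ₗ[ℂ] H) with hN'
  have h1 : ∀ k, N' (adjoint X k) = adjoint X (N k) := fun k =>
    LinearMap.extendOfNorm_eq hdense ⟨‖N‖, hbound⟩ k
  have h1' : N'.comp (adjoint X) = (adjoint X).comp N := by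
    ext k; exact h1 k
  have h2 : X.comp N' = N.comp X := by
    have hcl : IsClosed {x | X (N' x) = N (X x)} :=
      isClosed_eq (X.comp N').continuous (N.comp X).continuous
    ext x
    refine hcl.closure_subset_iff.2 ?_ (hdense x)
    rintro _ ⟨k, rfl⟩
    show X (N' (adjoint X k)) = N (X (adjoint X k))
    rw [h1]
    exact congrArg (fun T : K →L[ℂ] K => T k) hD.eq
  have h3 : X.comp (adjoint N') = (adjoint N).comp X := by
    have := congrArg adjoint h1'
    rwa [adjoint_comp, adjoint_comp, adjoint_adjoint] at this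
  refine ⟨N', ⟨?_⟩, h2⟩
  show (adjoint N') * N' = N' * (adjoint N')
  ext x
  apply hX
  have a1 : ∀ y, X (N' y) = N (X y) := fun y => congrArg (fun T : H →L[ℂ] K => T y) h2
  have a2 : ∀ y, X (adjoint N' y) = adjoint N (X y) := fun y =>
    congrArg (fun T : H →L[ℂ] K => T y) h3
  show X (adjoint N' (N' x)) = X (N' (adjoint N' x))
  rw [a2, a1, a1, a2]
  exact congrArg (fun T : K →L[ℂ] K => T (X x)) hN.star_comm_self.eq

/-- A nilpotent operator whose kernel is contained in the kernel of the adjoint is zero. -/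
lemma nil_zero (Q : H →L[ℂ] H) (hQ : IsNilpotent Q)
    (h : ∀ x, Q x = 0 → ContinuousLinearMap.adjoint Q x = 0) : Q = 0 := by
  have key : ∀ k : ℕ, Q ^ (k + 1) = 0 → Q = 0 := by
    intro k
    induction k with
    | zero => intro h0; simpa using h0
    | succ k ih =>
      intro h0
      apply ih
      ext x
      have e1 : Q ((Q ^ (k + 1)) x) = 0 := by
        have : (Q ^ (k + 1 + 1)) x = Q ((Q ^ (k + 1)) x) := by rw [pow_succ' Q (k + 1)]; rfl
        rw [← this, h0]; rfl
      have e2 := h _ e1
      have e3 : (Q ^ (k + 1)) x = Q ((Q ^ k) x) := by rw [pow_succ']; rfl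
      have e4 : ⟪Q ((Q ^ k) x), (Q ^ (k + 1)) x⟫_ℂ = 0 := by
        rw [← ContinuousLinearMap.adjoint_inner_right, e2, inner_zero_right]
      rw [← e3] at e4
      exact inner_self_eq_zero.1 e4
  obtain ⟨n, hn⟩ := hQ
  exact key n (by rw [pow_succ, hn, zero_mul])

open ContinuousLinearMap in
/-- If `A` is (weakly) quasi-similar to `N + Q`, with `N` normal and `Q` nilpotent, commuting, and
all hyperinvariant subspaces of `A` reduce `A`, then `A` is normal. -/
theorem normal_of_hyper (A : H →L[ℂ] H) (N Q : K →L[ℂ] K) (hN : IsStarNormal N)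
    (hQ : IsNilpotent Q) (hNQ : Commute N Q) (X : H →L[ℂ] K) (Y : K →L[ℂ] H)
    (hX : Function.Injective X) (hY : DenseRange Y)
    (hXA : X.comp A = (N + Q).comp X) (hAY : A.comp Y = Y.comp (N + Q))
    (hred : HyperReductive A) : IsStarNormal A := by
  have hD := comm_XX A N Q hN hQ hNQ X Y hX hY hXA hAY hred
  obtain ⟨N', hN', hXN⟩ := transfer N hN X hX hD
  have hbN : InBicomm (N + Q) N := fun C hC => comm_of_finite N Q hN hQ hNQ C hC
  have aX : ∀ y, X (A y) = (N + Q) (X y) := fun y => congrArg (fun T : H →L[ℂ] K => T y) hXA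
  have aY : ∀ y, A (Y y) = Y ((N + Q) y) := fun y => congrArg (fun T : K →L[ℂ] H => T y) hAY
  have aN : ∀ y, X (N' y) = N (X y) := fun y => congrArg (fun T : H →L[ℂ] K => T y) hXN
  -- `X S Y` commutes with `N`
  have hXSY : ∀ S : H →L[ℂ] H, Commute S A → Commute (X.comp (S.comp Y)) N := by
    intro S hS
    apply hbN
    ext k
    show X (S (Y ((N + Q) k))) = (N + Q) (X (S (Y k)))
    rw [← aY, ← aX]
    exact congrArg (fun T : H →L[ℂ] H => X (T (Y k))) hS.eq
  have hNY : ∀ k, N' (Y k) = Y (N k) := by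
    intro k
    apply hX
    rw [aN]
    have := hXSY 1 (Commute.one_left A)
    exact (congrArg (fun T : K →L[ℂ] K => T k) this.eq).symm
  have hSN : ∀ S : H →L[ℂ] H, Commute S A → Commute S N' := by
    intro S hS
    have hcl : IsClosed {x | S (N' x) = N' (S x)} :=
      isClosed_eq (S.comp N').continuous (N'.comp S).continuous
    ext x
    refine hcl.closure_subset_iff.2 ?_ (hY x)
    rintro _ ⟨k, rfl⟩
    show S (N' (Y k)) = N' (S (Y k))
    apply hX
    rw [hNY, aN]
    exact congrArg (fun T : K →L[ℂ] K => T k) (hXSY S hS).eq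
  set Q' : H →L[ℂ] H := A - N' with hQ'
  have hAN : Commute A N' := hSN A (Commute.refl A)
  have aQ : ∀ y, X (Q' y) = Q (X y) := by
    intro y
    show X (A y - N' y) = _
    rw [map_sub, aX, aN]
    show N (X y) + Q (X y) - N (X y) = _
    abel
  have hnil : IsNilpotent Q' := by
    obtain ⟨n, hn⟩ := hQ
    refine ⟨n, ?_⟩
    have : ∀ k : ℕ, ∀ y, X ((Q' ^ k) y) = (Q ^ k) (X y) := by
      intro k
      induction k with
      | zero => intro y; rfl
      | succ k ih =>
        intro y
        rw [pow_succ' Q', pow_succ' Q]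
        show X (Q' ((Q' ^ k) y)) = Q ((Q ^ k) (X y))
        rw [aQ, ih]
    ext y
    apply hX
    rw [this n y, hn]
    simp
  have hQN : Commute Q' N' := hAN.sub_left (Commute.refl N')
  have hQN' : Commute Q' (adjoint N') := hN'.commute_star_right hQN
  have hQ0 : Q' = 0 := by
    apply nil_zero Q' hnil
    intro x hx
    have hker : IsClosed ((LinearMap.ker (Q' : H →ₗ[ℂ] H) : Submodule ℂ H) : Set H) :=
      ContinuousLinearMap.isClosed_ker Q'
    have h1 := hred (LinearMap.ker (Q' : H →ₗ[ℂ] H)) hker (by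
      intro S hS y hy
      rw [LinearMap.mem_ker] at hy ⊢
      have hc : Commute S Q' := hS.sub_right (hSN S hS)
      show Q' (S y) = 0
      have e := congrArg (fun T : H →L[ℂ] H => T y) hc.eq
      have e' : S (Q' y) = Q' (S y) := e
      have hy' : Q' y = 0 := hy
      rw [← e', hy', map_zero]) x hx
    have h1' : Q' (adjoint A x) = 0 := h1
    have h2 : Q' (adjoint N' x) = 0 := by
      have e : Q' (adjoint N' x) = adjoint N' (Q' x) :=
        congrArg (fun T : H →L[ℂ] H => T x) hQN'.eq
      rw [e, hx, map_zero]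
    have h3 : adjoint Q' x = adjoint A x - adjoint N' x := by
      rw [hQ', map_sub]; rfl
    have h4 : Q' (adjoint Q' x) = 0 := by rw [h3, map_sub, h1', h2, sub_zero]
    have h5 : ⟪adjoint Q' x, adjoint Q' x⟫_ℂ = 0 := by
      rw [adjoint_inner_left, h4, inner_zero_right]
    exact inner_self_eq_zero.1 h5
  have : A = N' := sub_eq_zero.1 hQ0
  rw [this]
  exact hN'

/-- A normal operator has only reducing hyperinvariant subspaces. -/
theorem hyper_of_normal (A : H →L[ℂ] H) (hA : IsStarNormal A) : HyperReductive A :=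
  fun _ _ h x hx => h _ hA.star_comm_self x hx

end main

end Pool.Agent.Y852.RQ
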