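import Mathlib

/-!
# Local continuous choice of the roots of p(z) = w near a non-critical value
-/

set_option autoImplicit false

namespace Pool.Agent.Y852.RQ

open Polynomial Filter Topology

/-- a local inverse near a point where the derivative does not vanish -/
lemma local_inv (p : ℂ[X]) (l0 r : ℂ) (hr : p.eval r = l0) (hd : p.derivative.eval r ≠ 0) :
    ∃ (g : ℂ → ℂ) (U : Set ℂ), U ∈ 𝓝 l0 ∧ ContinuousOn g U ∧ (∀ z ∈ U, p.eval (g z) = z) ∧
      g l0 = r := by
  have h1 : HasStrictDerivAt (fun x => p.eval x) (p.derivative.eval r) r := p.hasStrictDerivAt r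
  have h2 := h1.hasStrictFDerivAt_equiv hd
  set e := h2.toOpenPartialHomeomorph (fun x => p.eval x) with he
  have hcoe : ∀ x, e x = p.eval x := fun x => rfl
  have hsrc : r ∈ e.source := h2.mem_toOpenPartialHomeomorph_source
  have htgt : l0 ∈ e.target := by
    have := e.map_source hsrc
    rwa [hcoe, hr] at this
  refine ⟨e.symm, e.target, e.open_target.mem_nhds htgt, e.continuousOn_symm, ?_, ?_⟩
  · intro z hz
    have := e.right_inv hz
    rwa [hcoe] at this
  · have := e.left_inv hsrc
    rwa [hcoe, hr] at this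

/-- radial retraction of the plane onto a closed disc -/
lemma retract (l0 : ℂ) (δ : ℝ) (hδ : 0 < δ) : ∃ ρ : ℂ → ℂ, Continuous ρ ∧
    (∀ z, ‖z - l0‖ ≤ δ → ρ z = z) ∧ ∀ z, ‖ρ z - l0‖ ≤ δ := by
  refine ⟨fun z => l0 + ((δ / max δ ‖z - l0‖ : ℝ) : ℂ) * (z - l0), ?_, ?_, ?_⟩
  · have h : ∀ z : ℂ, max δ ‖z - l0‖ ≠ 0 := fun z => (lt_of_lt_of_le hδ (le_max_left _ _)).ne'
    have h1 : Continuous fun z : ℂ => δ / max δ ‖z - l0‖ :=
      continuous_const.div (continuous_const.max (continuous_id.sub continuous_const).norm) h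
    exact continuous_const.add ((Complex.continuous_ofReal.comp h1).mul
      (continuous_id.sub continuous_const))
  · intro z hz
    show l0 + ((δ / max δ ‖z - l0‖ : ℝ) : ℂ) * (z - l0) = z
    rw [max_eq_left hz, div_self hδ.ne']
    simp
  · intro z
    show ‖l0 + ((δ / max δ ‖z - l0‖ : ℝ) : ℂ) * (z - l0) - l0‖ ≤ δ
    have hpos : 0 < max δ ‖z - l0‖ := lt_of_lt_of_le hδ (le_max_left _ _)
    rw [add_sub_cancel_left, norm_mul, Complex.norm_real, Real.norm_of_nonneg (by positivity),
      div_mul_eq_mul_div, div_le_iff₀ hpos]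
    exact mul_le_mul_of_nonneg_left (le_max_right _ _) hδ.le

/-- factorization from distinct roots -/
lemma factor_of_roots (q : ℂ[X]) {ι : Type} [Fintype ι] (r : ι → ℂ)
    (hinj : Function.Injective r) (hr : ∀ i, q.eval (r i) = 0) (hq : q ≠ 0)
    (hcard : q.natDegree ≤ Fintype.card ι) :
    q = C q.leadingCoeff * ∏ i, (X - C (r i)) := by
  classical
  have h1 : (Finset.univ.val.map r : Multiset ℂ) ≤ q.roots := by
    rw [Multiset.le_iff_subset ((Multiset.nodup_map_iff_of_injective hinj).2 Finset.univ.nodup)]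
    intro x hx
    obtain ⟨i, -, rfl⟩ := Multiset.mem_map.1 hx
    rw [mem_roots hq]
    exact hr i
  have h2 : Multiset.card q.roots ≤ Multiset.card (Finset.univ.val.map r : Multiset ℂ) := by
    rw [Multiset.card_map]
    exact (card_roots' q).trans hcard
  have h3 : (Finset.univ.val.map r : Multiset ℂ) = q.roots := Multiset.eq_of_le_of_card_le h1 h2
  have h4 : Multiset.card q.roots = q.natDegree := IsAlgClosed.card_roots_eq_natDegree
  have h5 := C_leadingCoeff_mul_prod_multiset_X_sub_C h4
  rw [← h3, Multiset.map_map] at h5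
  exact h5.symm

/-- Local continuous choice of all the roots of `p = z` for `z` near a non-critical value. -/
lemma local_roots (p : ℂ[X]) (l0 : ℂ) (hp : 0 < p.natDegree)
    (h : ∀ z, p.eval z = l0 → p.derivative.eval z ≠ 0) :
    ∃ (ι : Type) (_ : Fintype ι) (δ : ℝ) (ρ : ℂ → ℂ) (G : ι → ℂ → ℂ),
      0 < δ ∧ Continuous ρ ∧ (∀ i, Continuous (G i)) ∧ (∀ z, ‖z - l0‖ ≤ δ → ρ z = z) ∧
      ∀ z, p - C (ρ z) = C p.leadingCoeff * ∏ i, (X - C (G i z)) := by
  classical
  have hnd : ∀ c : ℂ, (p - C c).natDegree = p.natDegree := fun c => natDegree_sub_C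
  have hne : ∀ c : ℂ, p - C c ≠ 0 := by
    intro c h0
    have := hnd c
    rw [h0] at this
    simp at this
    omega
  have hlc : ∀ c : ℂ, (p - C c).leadingCoeff = p.leadingCoeff := by
    intro c
    apply leadingCoeff_sub_of_degree_lt
    exact lt_of_le_of_lt degree_C_le (natDegree_pos_iff_degree_pos.1 hp)
  let R : Finset ℂ := (p - C l0).roots.toFinset
  have hR : ∀ r : R, p.eval r.1 = l0 := by
    intro r
    have := r.2
    rw [Multiset.mem_toFinset, mem_roots (hne l0)] at this
    have h2 : (p - C l0).eval r.1 = 0 := this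
    rw [eval_sub, eval_C] at h2
    exact sub_eq_zero.1 h2
  have hnodup : (p - C l0).roots.Nodup := by
    rw [Multiset.nodup_iff_count_le_one]
    intro a
    rw [count_roots]
    by_contra hlt
    push Not at hlt
    rw [one_lt_rootMultiplicity_iff_isRoot (hne l0)] at hlt
    obtain ⟨h1, h2⟩ := hlt
    have h3 : p.eval a = l0 := by
      have : (p - C l0).eval a = 0 := h1
      rw [eval_sub, eval_C] at this
      exact sub_eq_zero.1 this
    refine h a h3 ?_
    have h4 : (derivative (p - C l0)).eval a = 0 := h2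
    rwa [derivative_sub, derivative_C, sub_zero] at h4
  have hcard : Fintype.card R = p.natDegree := by
    rw [Fintype.card_coe]
    show (p - C l0).roots.toFinset.card = _
    rw [Multiset.toFinset_card_of_nodup hnodup, IsAlgClosed.card_roots_eq_natDegree, hnd]
  have hg : ∀ r : R, ∃ (g : ℂ → ℂ) (U : Set ℂ), U ∈ 𝓝 l0 ∧ ContinuousOn g U ∧
      (∀ z ∈ U, p.eval (g z) = z) ∧ g l0 = r.1 := fun r =>
    local_inv p l0 r.1 (hR r) (h r.1 (hR r))
  choose g U hU hgc hgr hg0 using hg
  have e1 : ∀ᶠ z in 𝓝 l0, ∀ r : R, z ∈ U r := by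
    rw [eventually_all]
    exact fun r => hU r
  have e2 : ∀ᶠ z in 𝓝 l0, ∀ r s : R, r ≠ s → g r z ≠ g s z := by
    rw [eventually_all]
    intro r
    rw [eventually_all]
    intro s
    by_cases hrs : r = s
    · exact Eventually.of_forall fun z hz => absurd hrs hz
    · have c1 : ContinuousAt (g r) l0 := (hgc r).continuousAt (hU r)
      have c2 : ContinuousAt (g s) l0 := (hgc s).continuousAt (hU s)
      have hne' : g r l0 ≠ g s l0 := by
        rw [hg0, hg0]
        exact fun h => hrs (Subtype.ext h)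
      have := (c1.sub c2).eventually_ne (sub_ne_zero.2 hne')
      exact this.mono fun z hz _ => sub_ne_zero.1 hz
  obtain ⟨ε, hε, hball⟩ := Metric.eventually_nhds_iff.1 (e1.and e2)
  have hδ : 0 < ε / 2 := by positivity
  obtain ⟨ρ, hρc, hρ1, hρ2⟩ := retract l0 (ε / 2) hδ
  have hin : ∀ z, ‖z - l0‖ ≤ ε / 2 → (∀ r : R, z ∈ U r) ∧ ∀ r s : R, r ≠ s → g r z ≠ g s z := by
    intro z hz
    apply hball
    rw [dist_eq_norm]
    linarith
  refine ⟨R, inferInstance, ε / 2, ρ, fun r z => g r (ρ z), hδ, hρc, ?_, hρ1, ?_⟩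
  · intro r
    have h1 : ContinuousOn (g r) (Metric.closedBall l0 (ε / 2)) := (hgc r).mono (by
      intro z hz
      rw [Metric.mem_closedBall, dist_eq_norm] at hz
      exact (hin z hz).1 r)
    exact h1.comp_continuous hρc (fun z => by
      rw [Metric.mem_closedBall, dist_eq_norm]; exact hρ2 z)
  · intro z
    obtain ⟨k1, k2⟩ := hin (ρ z) (hρ2 z)
    have := factor_of_roots (p - C (ρ z)) (fun r : R => g r (ρ z)) (fun r s hrs => by
      by_contra hne'
      exact k2 r s hne' hrs) (fun r => by rw [eval_sub, eval_C, hgr r _ (k1 r), sub_self])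
      (hne _) (by rw [hnd, hcard])
    rw [hlc] at this
    exact this

end Pool.Agent.Y852.RQ
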